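import Pool.Agent.Work.MP_7794fd_co.X.Stmts
import Pool.Agent.Work.MP_7794fd_co.M.I_Letters

/-! MP_7794fd_co, block X, item Br: the bridge sets are the classes of `SameBridge`. -/

set_option autoImplicit false
set_option linter.unusedSectionVars false

namespace Pool.Agent.Work.MP_7794fd_co.X

open Finset Pool.Agent.Work.MP_7794fd_co.R Pool.Agent.Work.MP_7794fd_co.M

namespace I_Br

variable {V E : Type} [Fintype V] [DecidableEq V] [Fintype E] [DecidableEq E] (G : MG V E)

lemma set_eq {C : Finset E} (hG : Cubic G) (hC : IsCircuit G C) {A : Set V}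
    (hA : A ∈ bridgeSets G C) {v : V} (hv : v ∈ A) :
    v ∈ verts G C ∧ A = {x | x ∈ verts G C ∧ SameBridge G C ∅ v x} := by
  obtain ⟨-, ⟨e, heC, hes, rfl⟩ | ⟨u, hu, rfl⟩⟩ := hA
  · have hve : v ∈ G.ends e := hv
    have hvC := hes v hve
    refine ⟨hvC, ?_⟩
    obtain ⟨y, hy⟩ := Sym2.mem_iff_exists.1 hve
    ext w
    simp only [Set.mem_ofPred_eq]
    constructor
    · intro hw
      refine ⟨hes w hw, ?_⟩
      rw [hy, Sym2.mem_iff] at hw
      rcases hw with rfl | rfl
      · exact Or.inl rfl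
      · exact Or.inr (Or.inl ⟨e, heC, Finset.notMem_empty _, hy⟩)
    · rintro ⟨hw, h | ⟨e', h1, _, h3⟩ | ⟨u, h1, h2, h3⟩⟩
      · rw [← h]; exact hve
      · have hee : e = e' := Equiv.third G hG hC hvC heC h1 hve (by rw [h3]; simp)
        rw [hee, h3]; simp
      · exact (Equiv.chord_att G hG hC h1 (hes y (by rw [hy]; simp)) heC
          (by rw [hy, Sym2.eq_swap]) h2).elim
  · refine ⟨hv.1, ?_⟩
    have hu' : u ∉ verts G (C ∪ ∅) := by rwa [Finset.union_empty]
    ext w
    simp only [Set.mem_ofPred_eq]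
    constructor
    · intro hw
      exact ⟨hw.1, Or.inr (Or.inr ⟨u, hu', hv, hw⟩)⟩
    · rintro ⟨hw, h⟩
      exact (T.I_Eq0 G C hG hC).2.2.2 u hu v hv w hw h

end I_Br

/-- the bridge sets are the classes of `SameBridge` on the vertices of `C` -/
theorem Br_pf : S_Br := by
  intro V E _ _ _ _ G C hG hC
  obtain ⟨hs, ht, -, -⟩ := T.I_Eq0 G C hG hC
  exact ⟨fun v hv => I_Letters.cls_mem G hG hC hv,
    fun A hA v hv => I_Br.set_eq G hG hC hA hv,
    fun v _ x _ h => hs v x h,
    fun v hv x hx z hz h h' => ht v x z hv hx hz h h'⟩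

end Pool.Agent.Work.MP_7794fd_co.X
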