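import Pool.Agent.Work.MP_7794fd_co.X.Stmts

/-! Item CPto of block X: a pattern of a rotation gives a cyclic pattern. -/

set_option autoImplicit false

namespace Pool.Agent.Work.MP_7794fd_co.X

open Finset Pool.Agent.Work.MP_7794fd_co.R Pool.Agent.Work.MP_7794fd_co.M

namespace I_CPto

theorem per_mod {α : Type} {f : ℕ → α} {n : ℕ} (h : ∀ i, f (i + n) = f i) (i : ℕ) :
    f (i % n) = f i :=
  Function.Periodic.map_mod_nat h i

theorem per_mod1 {α : Type} {f : ℕ → α} {n : ℕ} (h : ∀ i, f (i + n) = f i) (i : ℕ) :
    f (i % n + 1) = f (i + 1) := by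
  have h1 : ∀ i, (fun j => f (j + 1)) (i + n) = (fun j => f (j + 1)) i := by
    intro j
    show f (j + n + 1) = f (j + 1)
    rw [add_right_comm]
    exact h _
  exact per_mod (f := fun j => f (j + 1)) h1 i

theorem inj_mod {n k i j : ℕ} (hi : i < n) (hj : j < n) (h : (i + k) % n = (j + k) % n) :
    i = j := by
  have h1 : i ≡ j [MOD n] := Nat.ModEq.add_right_cancel' k h
  exact Nat.ModEq.eq_of_lt_of_lt h1 hi hj

end I_CPto

open I_CPto in
theorem CPto_pf : S_CPto := by
  intro L _ w n hc hp
  obtain ⟨k, F, hF⟩ := hp
  have hn : 0 < n := by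
    have := hc.pos
    omega
  have hFn : ∀ i ∈ F, i < n := fun i hi => by
    have := hF.lt i hi
    omega
  have hmem : ∀ i, i < n → ((i + k) % n ∈ F.image (fun i => (i + k) % n) ↔ i ∈ F) := by
    intro i hi
    rw [Finset.mem_image]
    constructor
    · rintro ⟨j, hj, e⟩
      rw [← inj_mod (hFn j hj) hi e]
      exact hj
    · intro h
      exact ⟨i, h, rfl⟩
  have hinj : Set.InjOn (fun i => (i + k) % n) (F : Set ℕ) := by
    intro i hi j hj e
    exact inj_mod (hFn i hi) (hFn j hj) e
  refine ⟨F.image (fun i => (i + k) % n), ?_, ?_, ?_, ?_⟩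
  · exact hF.ne.image _
  · intro i hi
    obtain ⟨j, _, rfl⟩ := Finset.mem_image.1 hi
    exact Nat.mod_lt _ hn
  · intro x
    have e : gdeg w (F.image (fun i => (i + k) % n)) x = gdeg (fun i => w (i + k)) F x := by
      unfold gdeg
      rw [Finset.filter_image, Finset.filter_image,
        Finset.card_image_of_injOn (hinj.mono (fun i hi => (Finset.mem_filter.1 hi).1)),
        Finset.card_image_of_injOn (hinj.mono (fun i hi => (Finset.mem_filter.1 hi).1))]
      congr 2
      · apply Finset.filter_congr
        intro i _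
        rw [per_mod hc.per]
      · apply Finset.filter_congr
        intro i _
        rw [per_mod1 hc.per, add_right_comm]
    rw [e]
    exact hF.deg x
  · intro lam mu hl h1 h2
    have key := hF.conn (fun i => lam (i + k)) mu ⟨?_, ?_, ?_⟩ ?_
    · have key2 : ∀ j, lam j = lam k := by
        intro j
        have h3 : lam j = lam ((j + (n - k % n)) % n + k) := by
          rw [← per_mod hl j, ← per_mod hl ((j + (n - k % n)) % n + k)]
          congr 1
          have h4 : (j + (n - k % n)) % n + k ≡ j [MOD n] := by
            calc (j + (n - k % n)) % n + k ≡ (j + (n - k % n)) + k % n [MOD n] :=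
                  (Nat.mod_modEq _ _).add (Nat.mod_modEq _ _).symm
              _ = j + n := by
                  have := Nat.mod_lt k hn
                  omega
              _ ≡ j [MOD n] := Nat.add_modEq_right
          exact h4.symm
        rw [h3]
        have h5 := key ((j + (n - k % n)) % n) (Nat.mod_lt _ hn)
        simpa using h5
      intro i _
      rw [key2 i, key2 0]
    · intro i _ hi hiF
      have h3 := h1 ((i + k) % n) (Nat.mod_lt _ hn) (fun h => hiF ((hmem i (by omega)).1 h))
      rw [per_mod hl, per_mod1 hl] at h3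
      show lam (i + k) = lam (i + 1 + k)
      rw [h3, add_right_comm]
    · intro i _ hi hiF
      have h3 := (h2 ((i + k) % n) (Nat.mod_lt _ hn) ((hmem i (by omega)).2 hiF)).1
      rw [per_mod hl, per_mod hc.per] at h3
      exact h3
    · intro i _ hi hiF
      have h3 := (h2 ((i + k) % n) (Nat.mod_lt _ hn) ((hmem i (by omega)).2 hiF)).2
      rw [per_mod1 hl, per_mod1 hc.per] at h3
      show lam (i + 1 + k) = mu (w (i + 1 + k))
      rw [add_right_comm]
      exact h3
    · have h3 := h1 ((n - 1 + k) % n) (Nat.mod_lt _ hn) (fun h => by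
        have h4 := (hmem (n - 1) (by omega)).1 h
        have h5 := hF.lt _ h4
        omega)
      rw [per_mod hl, per_mod1 hl] at h3
      show lam (0 + k) = lam (n - 1 + k)
      rw [h3, show n - 1 + k + 1 = 0 + k + n by omega]
      exact (hl _).symm

end Pool.Agent.Work.MP_7794fd_co.X
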