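import Pool.Agent.Work.MP_7794fd_co.X.Stmts
import Pool.Agent.Work.MP_7794fd_co.M.I_CycEdge

/-! Block X, item CycExt: a pattern of a rotation of the cyclic word gives an extension. -/

set_option autoImplicit false

namespace Pool.Agent.Work.MP_7794fd_co.X

open Finset Pool.Agent.Work.MP_7794fd_co.R Pool.Agent.Work.MP_7794fd_co.M

theorem CycExt_pf (h1 : M.S_PatExt) (h2 : M.S_ExtSemi) : S_CycExt := by
  intro V E _ _ _ _ _ G C n f c w hG hC hcyc hw hp
  obtain ⟨k, F, hF⟩ := hp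
  have hr := M.I_CycEdge.rot G C n f c hcyc k
  obtain ⟨D, hD, hne, hsub, -⟩ := h1 G C n _ _ (fun i => w (i + k)) F hG hC hr
    (fun i _ j _ => hw (i + k) (j + k)) hF
  exact ⟨D, hD, hne, hsub, h2 G C D hC hD hne hsub⟩

end Pool.Agent.Work.MP_7794fd_co.X
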