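import Pool.Agent.Work.MP_7794fd_co.X.Stmts
import Pool.Agent.Work.MP_7794fd_co.R.Equiv

/-! Project MP_7794fd_co, block X, item ExcSemi: two bridges with three attachments, all others
with two. -/

set_option autoImplicit false
set_option linter.unusedSectionVars false

namespace Pool.Agent.Work.MP_7794fd_co.X

open Finset Pool.Agent.Work.MP_7794fd_co.R Pool.Agent.Work.MP_7794fd_co.M

namespace I_ExcSemi

variable {V E : Type} [Fintype V] [DecidableEq V] [Fintype E] [DecidableEq E] (G : MG V E)

/-- a path of a bridge is a path with ends on `C` -/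
lemma cpath {C Q : Finset E} {v w : V} (hv : v ∈ verts G C) (hw : w ∈ verts G C) (hne : v ≠ w)
    (h : IsBPath G C Q v w) : IsCPath G C Q v w where
  disj := h.disj
  ne := hne
  memx := hv
  memy := hw
  degx := h.dv
  degy := h.dw
  degC := h.dC
  degO := h.dO
  conn := h.link

/-- a common attachment joins the outside vertices -/
lemma reach_of_common {C : Finset E} (hG : Cubic G) (hC : IsCircuit G C) {u u' x : V}
    (hu : u ∉ verts G C) (hu' : u' ∉ verts G C) (hx : x ∈ att G C ∅ u) (hx' : x ∈ att G C ∅ u') :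
    Reach G (verts G C)ᶜ Finset.univ u u' := by
  have h1 : u ∉ verts G (C ∪ ∅) := by rwa [Finset.union_empty]
  have h2 : u' ∉ verts G (C ∪ ∅) := by rwa [Finset.union_empty]
  obtain ⟨q₁, e₁, r₁, d₁, n₁, c₁⟩ := Equiv.att_edge G h1 hx
  obtain ⟨q₂, e₂, r₂, d₂, n₂, c₂⟩ := Equiv.att_edge G h2 hx'
  have he : e₁ = e₂ := Equiv.third G hG hC hx.1 c₁ c₂ (by rw [d₁]; simp) (by rw [d₂]; simp)
  have hq : q₁ = q₂ := by
    rw [← he, d₁] at d₂
    rcases Sym2.eq_iff.1 d₂ with h | h
    · exact h.1
    · rw [h.1, h.2]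
  rw [Finset.union_empty] at r₁ r₂
  rw [hq] at r₁
  exact r₁.trans (Equiv.reach_symm G r₂)

end I_ExcSemi

open I_ExcSemi in
/-- all bridge sets have two or three elements and exactly two of them have three -/
theorem ExcSemi_pf (h1 : T.StMain3) (h2 : S_Br) (h3 : M.S_BPath) : S_ExcSemi := by
  intro V E _ _ _ _ G C hG hC h23 htwo
  obtain ⟨hb1, hb2, hb3, hb4⟩ := h2 G C hG hC
  have hne0 : {A | A ∈ bridgeSets G C ∧ A.ncard = 3}.Nonempty := by
    by_contra hcon
    rw [Set.not_nonempty_iff_eq_empty] at hcon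
    rw [hcon, Set.ncard_empty] at htwo
    omega
  obtain ⟨A, hA, hA3⟩ := hne0
  -- a path
  have hP : ∃ P x y, IsCPath G C P x y := by
    have hone : 1 < A.ncard := by omega
    obtain ⟨v, hv, x, hx, hvx⟩ := (Set.one_lt_ncard (Set.toFinite A)).1 hone
    obtain ⟨hvC, hAv⟩ := hb2 A hA v hv
    have hx' := hx
    rw [hAv] at hx'
    obtain ⟨Q, hQ⟩ := h3 G C hG hC v hvC x hx'.1 hvx hx'.2
    exact ⟨Q, v, x, cpath G hvC hx'.1 hvx hQ⟩
  -- the attachment sets of the outside vertices
  have hatt : ∀ u, u ∉ verts G C → (att G C ∅ u).Nonempty → att G C ∅ u ∈ bridgeSets G C :=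
    fun u hu hn => ⟨hn, Or.inr ⟨u, hu, rfl⟩⟩
  refine h1 G hG C hC hP ?_ ?_
  · intro u hu
    rcases Set.eq_empty_or_nonempty (att G C ∅ u) with h | h
    · rw [h, Set.ncard_empty]
      omega
    · rcases h23 _ (hatt u hu h) with h' | h' <;> omega
  · intro f hf
    have hnon : ∀ i, (att G C ∅ (f i)).Nonempty := by
      intro i
      by_contra hcon
      rw [Set.not_nonempty_iff_eq_empty] at hcon
      have := (hf i).2
      rw [hcon, Set.ncard_empty] at this
      omega
    have hmem : ∀ i, att G C ∅ (f i) ∈ {A | A ∈ bridgeSets G C ∧ A.ncard = 3} :=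
      fun i => ⟨hatt (f i) (hf i).1 (hnon i), (hf i).2⟩
    have hninj : ¬ Function.Injective (fun i => att G C ∅ (f i)) := by
      intro hinj
      have hr : (Set.range (fun i => att G C ∅ (f i))).ncard = 4 := by
        rw [← Set.image_univ, Set.ncard_image_of_injective _ hinj, Set.ncard_univ,
          Nat.card_eq_fintype_card, Fintype.card_fin]
      have hle : (Set.range (fun i => att G C ∅ (f i))).ncard ≤
          {A | A ∈ bridgeSets G C ∧ A.ncard = 3}.ncard := by
        refine Set.ncard_le_ncard ?_ (Set.toFinite _)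
        rintro _ ⟨i, rfl⟩
        exact hmem i
      omega
    unfold Function.Injective at hninj
    push Not at hninj
    obtain ⟨i, j, hij, hne⟩ := hninj
    obtain ⟨x, hx⟩ := hnon i
    have hx' : x ∈ att G C ∅ (f j) := by
      rw [← hij]
      exact hx
    exact ⟨i, j, hne, reach_of_common G hG hC (hf i).1 (hf j).1 hx hx'⟩

end Pool.Agent.Work.MP_7794fd_co.X
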