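import Pool.Agent.Work.MP_7794fd_co.X.Stmts

/-! Project MP_7794fd_co, block X, item FinalX: the final theorem. -/

set_option autoImplicit false

namespace Pool.Agent.Work.MP_7794fd_co.X

open Finset Pool.Agent.Work.MP_7794fd_co.R Pool.Agent.Work.MP_7794fd_co.M

theorem FinalX_pf (h1 : S_Word) (h2 : S_WordG) (h3 : S_CycExt) (h4 : S_ExcSemi) : S_FinalX := by
  classical
  intro V E _ _ _ _ G hG C hC hA h8
  obtain ⟨n, f, c, w, hcyc, hW, hw, hL, hcnt⟩ := h2 G C hG hC hA
  have hset : bridgeSets G C = ((Lts w n : Finset (Set V)) : Set (Set V)) := by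
    ext A
    rw [Finset.mem_coe]
    exact (hL A).symm
  have hcard : (bridgeSets G C).ncard = (Lts w n).card := by
    rw [hset, Set.ncard_coe_finset]
  rcases h1 w n hW (by omega) with hp | he
  · obtain ⟨D, hD, hne, hsub, hsemi⟩ := h3 G C n f c w hG hC hcyc hw hp
    exact ⟨⟨D, hsemi⟩, Or.inl ⟨D, hD, hne, hsub⟩⟩
  · have h23 : ∀ A ∈ bridgeSets G C, A.ncard = 2 ∨ A.ncard = 3 := by
      intro A hAm
      rw [← hcnt A hAm]
      exact he.cnt23 A ((hL A).2 hAm)
    have h2' : {A | A ∈ bridgeSets G C ∧ A.ncard = 3}.ncard = 2 := by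
      have e : {A | A ∈ bridgeSets G C ∧ A.ncard = 3} =
          (((Lts w n).filter fun x => cnt w n x = 3 : Finset (Set V)) : Set (Set V)) := by
        ext A
        rw [Finset.mem_coe, Finset.mem_filter]
        constructor
        · rintro ⟨hm, h⟩
          exact ⟨(hL A).2 hm, by rw [hcnt A hm, h]⟩
        · rintro ⟨hm, h⟩
          have hm' := (hL A).1 hm
          exact ⟨hm', by rw [← hcnt A hm', h]⟩
      rw [e, Set.ncard_coe_finset]
      exact he.two
    exact ⟨h4 G C hG hC h23 h2', Or.inr ⟨by rw [hcard]; exact he.big, h23, h2'⟩⟩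

end Pool.Agent.Work.MP_7794fd_co.X
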