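import Pool.Agent.Work.MP_7794fd_co.X.Stmts

/-! Project MP_7794fd_co, block X, item Red: the reduction step on cyclic words.  Author: helper92. -/

set_option autoImplicit false

namespace Pool.Agent.Work.MP_7794fd_co.X

theorem Red_pf (h1 : S_CPof) (h2 : S_CPto) (h3 : S_RedCyc) (h4 : S_RedPat) : S_Red := by
  intro L _ w n hC h02 h01 hcon
  obtain ⟨hc, _, he⟩ := h3 w n hC h02 h01
  rcases hcon with hp | hx
  · obtain ⟨F', hF'⟩ := h2 (red w n) (n - 2) hc hp
    obtain ⟨F, hF⟩ := h4 w n F' hC h02 h01 hF'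
    exact Or.inl (h1 w n F hC hF)
  · exact Or.inr (he hx)

end Pool.Agent.Work.MP_7794fd_co.X
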