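import Pool.Agent.Work.MP_7794fd_co.X.Stmts

/-! Project MP_7794fd_co, block X, item RedCyc: the reduced word. -/

set_option autoImplicit false

namespace Pool.Agent.Work.MP_7794fd_co.X

open Finset Pool.Agent.Work.MP_7794fd_co.R Pool.Agent.Work.MP_7794fd_co.M

namespace I_RedCyc

variable {L : Type} [DecidableEq L]

theorem cnt_sum (w : ℕ → L) (n : ℕ) (z : L) :
    cnt w n z = ∑ i ∈ range n, if w i = z then 1 else 0 := by
  unfold cnt
  rw [Finset.card_filter]

theorem cnt_two (w : ℕ → L) (m : ℕ) (z : L) :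
    cnt w (m + 2) z = (∑ i ∈ range m, if w (i + 2) = z then 1 else 0) +
      (if w 1 = z then 1 else 0) + (if w 0 = z then 1 else 0) := by
  rw [cnt_sum, Finset.sum_range_succ', Finset.sum_range_succ']

theorem red_lt (w : ℕ → L) (m j : ℕ) (hj : j < m) :
    red w (m + 2) j = if w (j + 2) = w 1 then w 0 else w (j + 2) := by
  unfold red
  rw [Nat.add_sub_cancel, Nat.mod_eq_of_lt hj]

theorem cnt_red (w : ℕ → L) (m : ℕ) (z : L) :
    cnt (red w (m + 2)) m z =
      ∑ i ∈ range m, if (if w (i + 2) = w 1 then w 0 else w (i + 2)) = z then 1 else 0 := by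
  rw [cnt_sum]
  refine Finset.sum_congr rfl fun i hi => ?_
  rw [red_lt w m i (Finset.mem_range.1 hi)]

theorem cnt_other (w : ℕ → L) (m : ℕ) (z : L) (h0 : z ≠ w 0) (h1 : z ≠ w 1) :
    cnt (red w (m + 2)) m z = cnt w (m + 2) z := by
  rw [cnt_red, cnt_two, if_neg (fun h => h1 h.symm), if_neg (fun h => h0 h.symm), add_zero,
    add_zero]
  refine Finset.sum_congr rfl fun i _ => ?_
  by_cases h : w (i + 2) = w 1
  · rw [if_pos h, if_neg (fun h' => h0 h'.symm), if_neg (fun h' => h1 (h'.symm.trans h))]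
  · rw [if_neg h]

theorem cnt_x (w : ℕ → L) (m : ℕ) (h01 : w 0 ≠ w 1) :
    cnt (red w (m + 2)) m (w 0) + 2 = cnt w (m + 2) (w 0) + cnt w (m + 2) (w 1) := by
  rw [cnt_red, cnt_two, cnt_two, if_neg (fun h => h01 h.symm), if_pos rfl, if_pos rfl,
    if_neg h01]
  have h : (∑ i ∈ range m, if (if w (i + 2) = w 1 then w 0 else w (i + 2)) = w 0 then 1 else 0) =
      (∑ i ∈ range m, if w (i + 2) = w 0 then 1 else 0) +
        ∑ i ∈ range m, if w (i + 2) = w 1 then 1 else 0 := by
    rw [← Finset.sum_add_distrib]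
    refine Finset.sum_congr rfl fun i _ => ?_
    by_cases h : w (i + 2) = w 1
    · rw [if_pos h, if_pos rfl, if_pos h, if_neg (fun h' => h01 (h'.symm.trans h))]
    · rw [if_neg h, if_neg h, add_zero]
  rw [h]
  ring

theorem mem_Lts (w : ℕ → L) (n : ℕ) (z : L) : z ∈ Lts w n ↔ ∃ i < n, w i = z := by
  unfold Lts
  simp only [Finset.mem_image, Finset.mem_range]

theorem Lts_red (w : ℕ → L) (m : ℕ) (hm : 0 < m) (h02 : w 0 = w 2) (h01 : w 0 ≠ w 1) :
    Lts (red w (m + 2)) m = (Lts w (m + 2)).erase (w 1) := by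
  ext z
  rw [Finset.mem_erase, mem_Lts, mem_Lts]
  constructor
  · rintro ⟨j, hj, rfl⟩
    rw [red_lt w m j hj]
    by_cases h : w (j + 2) = w 1
    · rw [if_pos h]
      exact ⟨h01, 0, by omega, rfl⟩
    · rw [if_neg h]
      exact ⟨h, j + 2, by omega, rfl⟩
  · rintro ⟨hz, i, hi, rfl⟩
    match i with
    | 0 =>
      refine ⟨0, hm, ?_⟩
      rw [red_lt w m 0 hm, if_neg]
      · exact h02.symm
      · intro h
        exact h01 (h02.trans h)
    | 1 => exact absurd rfl hz
    | j + 2 =>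
      refine ⟨j, by omega, ?_⟩
      rw [red_lt w m j (by omega), if_neg hz]

end I_RedCyc

open I_RedCyc in
/-- RedCyc. -/
theorem RedCyc_pf : S_RedCyc := by
  intro L _ w n hC h02 h01
  obtain ⟨hpos, hper, hmult⟩ := hC
  have hx : w 0 ∈ Lts w n := (mem_Lts _ _ _).2 ⟨0, by omega, rfl⟩
  have hy : w 1 ∈ Lts w n := (mem_Lts _ _ _).2 ⟨1, by omega, rfl⟩
  have cx := hmult _ hx
  have cy := hmult _ hy
  have hn4 : 4 ≤ n := by
    by_contra h
    have h2 : n = 2 ∨ n = 3 := by omega
    rcases h2 with rfl | rfl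
    · rw [cnt_sum] at cx
      simp only [Finset.sum_range_succ, Finset.sum_range_zero] at cx
      rw [if_pos trivial, if_neg (fun h' => h01 h'.symm)] at cx
      omega
    · rw [cnt_sum] at cy
      simp only [Finset.sum_range_succ, Finset.sum_range_zero] at cy
      rw [if_neg h01, if_pos trivial, if_neg (fun h' => h01 (h02.trans h'))] at cy
      omega
  obtain ⟨m, rfl⟩ : ∃ m, n = m + 2 := ⟨n - 2, by omega⟩
  rw [Nat.add_sub_cancel]
  have hm : 2 ≤ m := by omega
  have hL := Lts_red w m (by omega) h02 h01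
  have hcx := cnt_x w m h01
  have hmem : ∀ z ∈ Lts (red w (m + 2)) m, z ∈ Lts w (m + 2) ∧ z ≠ w 1 := by
    intro z hz
    rw [hL, Finset.mem_erase] at hz
    exact ⟨hz.2, hz.1⟩
  have hxr : w 0 ∈ Lts (red w (m + 2)) m := by
    rw [hL, Finset.mem_erase]
    exact ⟨h01, hx⟩
  have hcard : (Lts (red w (m + 2)) m).card < (Lts w (m + 2)).card := by
    rw [hL]
    exact Finset.card_erase_lt_of_mem hy
  refine ⟨⟨hm, ?_, ?_⟩, hcard, ?_⟩
  · intro i
    unfold red
    rw [Nat.add_sub_cancel, Nat.add_mod_right]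
  · intro z hz
    by_cases h : z = w 0
    · rw [h]
      omega
    · rw [cnt_other w m z h (hmem z hz).2]
      exact hmult z (hmem z hz).1
  · rintro ⟨hbig, h23, htwo⟩
    have hcr := h23 _ hxr
    have c23 : ∀ z ∈ Lts w (m + 2), cnt w (m + 2) z = 2 ∨ cnt w (m + 2) z = 3 := by
      intro z hz
      by_cases h0 : z = w 0
      · rw [h0]
        omega
      by_cases h1 : z = w 1
      · rw [h1]
        omega
      have hzr : z ∈ Lts (red w (m + 2)) m := by
        rw [hL, Finset.mem_erase]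
        exact ⟨h1, hz⟩
      have := h23 z hzr
      rwa [cnt_other w m z h0 h1] at this
    refine ⟨hbig.trans hcard.le, c23, ?_⟩
    rw [Finset.card_filter] at htwo ⊢
    rw [← Finset.add_sum_erase _ _ hy, ← hL, ← Finset.add_sum_erase _ _ hxr]
    rw [← Finset.add_sum_erase _ _ hxr] at htwo
    have hs : ∑ z ∈ (Lts (red w (m + 2)) m).erase (w 0),
        (if cnt (red w (m + 2)) m z = 3 then 1 else 0) =
        ∑ z ∈ (Lts (red w (m + 2)) m).erase (w 0), (if cnt w (m + 2) z = 3 then 1 else 0) := by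
      refine Finset.sum_congr rfl fun z hz => ?_
      rw [Finset.mem_erase] at hz
      rw [cnt_other w m z hz.1 (hmem z hz.2).2]
    rw [hs] at htwo
    have h1 := c23 _ hx
    have h2 := c23 _ hy
    refine Eq.trans ?_ htwo
    rw [← add_assoc]
    congr 1
    rcases h1 with h1 | h1 <;> rcases h2 with h2 | h2 <;> rcases hcr with h3 | h3 <;>
      rw [h1, h2, h3] <;> first | rfl | (exfalso; omega)

end Pool.Agent.Work.MP_7794fd_co.X
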