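import Pool.Agent.Work.MP_7794fd_co.X.Stmts

/-! Project MP_7794fd_co, block X, item RedPat: a pattern of the reduced word gives a pattern of the
word. -/

set_option autoImplicit false

namespace Pool.Agent.Work.MP_7794fd_co.X

open Finset Pool.Agent.Work.MP_7794fd_co.R Pool.Agent.Work.MP_7794fd_co.M

namespace I_RedPat

variable {L : Type} [DecidableEq L]

theorem four_le {w : ℕ → L} {n : ℕ} (hw : Cyc w n) (h01 : w 0 ≠ w 1) : 4 ≤ n := by
  have hp := hw.pos
  have h0 : w 0 ∈ Lts w n := Finset.mem_image_of_mem w (Finset.mem_range.2 (by omega))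
  have h1 : w 1 ∈ Lts w n := Finset.mem_image_of_mem w (Finset.mem_range.2 (by omega))
  have c0 := hw.mult _ h0
  have c1 := hw.mult _ h1
  unfold cnt at c0 c1
  have hd : Disjoint ((range n).filter fun i => w i = w 0)
      ((range n).filter fun i => w i = w 1) := by
    rw [Finset.disjoint_filter]
    intro i _ h h'
    exact h01 (h.symm.trans h')
  have hs : (((range n).filter fun i => w i = w 0) ∪
      ((range n).filter fun i => w i = w 1)).card ≤ (range n).card :=
    Finset.card_le_card (Finset.union_subset (Finset.filter_subset _ _) (Finset.filter_subset _ _))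
  rw [Finset.card_union_of_disjoint hd, card_range] at hs
  omega

/-- identification of the letters `w 0` and `w 1` -/
def sg (w : ℕ → L) (z : L) : L := if z = w 1 then w 0 else z

theorem red0 {w : ℕ → L} {n j : ℕ} (hj : j < n - 2) : red w n j = sg w (w (j + 2)) := by
  unfold red sg
  rw [Nat.mod_eq_of_lt hj]

theorem red1 {w : ℕ → L} {n j : ℕ} (hw : Cyc w n) (h02 : w 0 = w 2) (h01 : w 0 ≠ w 1)
    (hn : 4 ≤ n) (hj : j < n - 2) : red w n (j + 1) = sg w (w (j + 3)) := by
  unfold red sg
  rcases Nat.lt_or_ge (j + 1) (n - 2) with h | h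
  · rw [Nat.mod_eq_of_lt h]
  · have h1 : j + 1 = n - 2 := by omega
    have h3 : j + 3 = 0 + n := by omega
    rw [h1, Nat.mod_self, h3, hw.per, ← h02]

theorem sg_other {w : ℕ → L} {z u : L} (h0 : z ≠ w 0) (h1 : z ≠ w 1) : sg w u = z ↔ u = z := by
  unfold sg
  split
  · rename_i h
    constructor
    · intro h'
      exact absurd h'.symm h0
    · intro h'
      exact absurd (h'.symm.trans h) h1
  · rfl

theorem sg_x {w : ℕ → L} {u : L} : sg w u = w 0 ↔ u = w 0 ∨ u = w 1 := by
  unfold sg
  split
  · rename_i h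
    simp [h]
  · rename_i h
    simp [h]

/-- the gaps of the long word -/
def up (F' : Finset ℕ) : Finset ℕ := F'.map (addRightEmbedding 2)

theorem mem_up {F' : Finset ℕ} {i : ℕ} : i ∈ up F' ↔ ∃ j ∈ F', j + 2 = i := by
  simp [up]

theorem up_ge {F' : Finset ℕ} {i : ℕ} (h : i ∈ up F') : 2 ≤ i := by
  obtain ⟨j, _, rfl⟩ := mem_up.1 h
  omega

theorem add_mem_up {F' : Finset ℕ} {j : ℕ} : j + 2 ∈ up F' ↔ j ∈ F' := by
  rw [mem_up]
  constructor
  · rintro ⟨i, hi, h⟩
    have : i = j := by omega
    rwa [← this]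
  · intro h
    exact ⟨j, h, rfl⟩

theorem gdeg_up (w : ℕ → L) (F' : Finset ℕ) (z : L) : gdeg w (up F') z =
    (F'.filter fun j => w (j + 2) = z).card + (F'.filter fun j => w (j + 3) = z).card := by
  unfold gdeg up
  rw [Finset.filter_map, Finset.filter_map, card_map, card_map]
  rfl

theorem gdeg_red {w : ℕ → L} {n : ℕ} {F' : Finset ℕ} (hw : Cyc w n) (h02 : w 0 = w 2)
    (h01 : w 0 ≠ w 1) (hn : 4 ≤ n) (hF : ∀ j ∈ F', j < n - 2) (z : L) :
    gdeg (red w n) F' z = (F'.filter fun j => sg w (w (j + 2)) = z).card +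
      (F'.filter fun j => sg w (w (j + 3)) = z).card := by
  unfold gdeg
  congr 2
  · refine Finset.filter_congr fun j hj => ?_
    rw [red0 (hF j hj)]
  · refine Finset.filter_congr fun j hj => ?_
    rw [red1 hw h02 h01 hn (hF j hj)]

theorem gdeg_other {w : ℕ → L} {n : ℕ} {F' : Finset ℕ} (hw : Cyc w n) (h02 : w 0 = w 2)
    (h01 : w 0 ≠ w 1) (hn : 4 ≤ n) (hF : ∀ j ∈ F', j < n - 2) {z : L} (h0 : z ≠ w 0)
    (h1 : z ≠ w 1) : gdeg w (up F') z = gdeg (red w n) F' z := by
  rw [gdeg_red hw h02 h01 hn hF, gdeg_up]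
  congr 2
  · exact Finset.filter_congr fun j _ => (sg_other h0 h1).symm
  · exact Finset.filter_congr fun j _ => (sg_other h0 h1).symm

theorem card_or (F' : Finset ℕ) (g : ℕ → L) {x y : L} (hxy : x ≠ y) :
    (F'.filter fun j => g j = x ∨ g j = y).card =
      (F'.filter fun j => g j = x).card + (F'.filter fun j => g j = y).card := by
  rw [Finset.filter_or, Finset.card_union_of_disjoint]
  rw [Finset.disjoint_filter]
  intro i _ h h'
  exact hxy (h.symm.trans h')

theorem gdeg_x {w : ℕ → L} {n : ℕ} {F' : Finset ℕ} (hw : Cyc w n) (h02 : w 0 = w 2)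
    (h01 : w 0 ≠ w 1) (hn : 4 ≤ n) (hF : ∀ j ∈ F', j < n - 2) :
    gdeg (red w n) F' (w 0) = gdeg w (up F') (w 0) + gdeg w (up F') (w 1) := by
  rw [gdeg_red hw h02 h01 hn hF, gdeg_up, gdeg_up]
  have e2 : (F'.filter fun j => sg w (w (j + 2)) = w 0) =
      F'.filter fun j => w (j + 2) = w 0 ∨ w (j + 2) = w 1 :=
    Finset.filter_congr fun j _ => sg_x
  have e3 : (F'.filter fun j => sg w (w (j + 3)) = w 0) =
      F'.filter fun j => w (j + 3) = w 0 ∨ w (j + 3) = w 1 :=
    Finset.filter_congr fun j _ => sg_x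
  rw [e2, e3, card_or F' (fun j => w (j + 2)) h01, card_or F' (fun j => w (j + 3)) h01]
  omega

theorem gdeg_insert (w : ℕ → L) (F : Finset ℕ) (g : ℕ) (hg : g ∉ F) (z : L) :
    gdeg w (insert g F) z = gdeg w F z + (if w g = z then 1 else 0) +
      (if w (g + 1) = z then 1 else 0) := by
  unfold gdeg
  rw [Finset.filter_insert, Finset.filter_insert]
  have h1 : g ∉ F.filter fun i => w i = z := fun h => hg (Finset.mem_filter.1 h).1
  have h2 : g ∉ F.filter fun i => w (i + 1) = z := fun h => hg (Finset.mem_filter.1 h).1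
  split <;> split
  · rw [Finset.card_insert_of_notMem h1, Finset.card_insert_of_notMem h2]
    omega
  · rw [Finset.card_insert_of_notMem h1]
    omega
  · rw [Finset.card_insert_of_notMem h2]
    omega
  · omega

theorem gdeg_zero {w : ℕ → L} {F' : Finset ℕ} {z : L} (h : gdeg w (up F') z = 0) :
    ∀ j ∈ F', w (j + 2) ≠ z ∧ w (j + 3) ≠ z := by
  rw [gdeg_up] at h
  have h1 : (F'.filter fun j => w (j + 2) = z).card = 0 := by omega
  have h2 : (F'.filter fun j => w (j + 3) = z).card = 0 := by omega
  rw [Finset.card_eq_zero, Finset.filter_eq_empty_iff] at h1 h2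
  exact fun j hj => ⟨h1 hj, h2 hj⟩

theorem gdeg_pos {w : ℕ → L} {F' : Finset ℕ} {z : L} (h : gdeg w (up F') z ≠ 0) :
    ∃ j ∈ F', w (j + 2) = z ∨ w (j + 3) = z := by
  by_contra hne
  push Not at hne
  apply h
  rw [gdeg_up]
  have h1 : (F'.filter fun j => w (j + 2) = z) = ∅ :=
    Finset.filter_eq_empty_iff.2 fun j hj => (hne j hj).1
  have h2 : (F'.filter fun j => w (j + 3) = z) = ∅ :=
    Finset.filter_eq_empty_iff.2 fun j hj => (hne j hj).2
  rw [h1, h2]
  rfl

/-- The key step: labels of the long word which do not distinguish `w 0` and `w 1`. -/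
theorem key {w : ℕ → L} {n : ℕ} {F' : Finset ℕ} (hw : Cyc w n) (h02 : w 0 = w 2)
    (h01 : w 0 ≠ w 1) (hn : 4 ≤ n) (hP : IsCP (red w n) (n - 2) F') (lam : ℕ → Bool)
    (mu : L → Bool) (m : Bool) (hper : ∀ i, lam (i + n) = lam i) (hl : lam 0 = lam 2)
    (hseg : ∀ j < n - 2, j ∉ F' → lam (j + 2) = lam (j + 3))
    (hF : ∀ j ∈ F', lam (j + 2) = mu (w (j + 2)) ∧ lam (j + 3) = mu (w (j + 3)))
    (hm : ∀ j ∈ F', (w (j + 2) = w 0 ∨ w (j + 2) = w 1 → mu (w (j + 2)) = m) ∧
      (w (j + 3) = w 0 ∨ w (j + 3) = w 1 → mu (w (j + 3)) = m)) :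
    ∀ j < n - 2, lam (j + 2) = lam 2 := by
  have hstep : ∀ j < n - 2, lam ((j + 1) % (n - 2) + 2) = lam (j + 3) := by
    intro j hj
    rcases Nat.lt_or_ge (j + 1) (n - 2) with h | h
    · rw [Nat.mod_eq_of_lt h]
    · have h1 : j + 1 = n - 2 := by omega
      have h3 : j + 3 = 0 + n := by omega
      rw [h1, Nat.mod_self, h3, hper, hl]
  have hmu : ∀ u : L, (u = w 0 ∨ u = w 1 → mu u = m) →
      (if sg w u = w 0 then m else mu (sg w u)) = mu u := by
    intro u hu
    by_cases h1 : u = w 1
    · rw [if_pos (sg_x.2 (Or.inr h1))]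
      exact (hu (Or.inr h1)).symm
    · have hs : sg w u = u := by unfold sg; rw [if_neg h1]
      by_cases h0 : u = w 0
      · rw [if_pos (sg_x.2 (Or.inl h0))]
        exact (hu (Or.inl h0)).symm
      · rw [hs, if_neg h0]
  have h := hP.conn (fun j => lam (j % (n - 2) + 2)) (fun z => if z = w 0 then m else mu z)
    (fun i => by simp only [Nat.add_mod_right])
    (fun j hj hjF => by
      show lam (j % (n - 2) + 2) = lam ((j + 1) % (n - 2) + 2)
      rw [hstep j hj, Nat.mod_eq_of_lt hj]
      exact hseg j hj hjF)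
    (fun j hj hjF => by
      obtain ⟨f1, f2⟩ := hF j hjF
      obtain ⟨m1, m2⟩ := hm j hjF
      refine ⟨?_, ?_⟩
      · rw [red0 hj, hmu _ m1]
        show lam (j % (n - 2) + 2) = _
        rw [Nat.mod_eq_of_lt hj, f1]
      · rw [red1 hw h02 h01 hn hj, hmu _ m2]
        show lam ((j + 1) % (n - 2) + 2) = _
        rw [hstep j hj, f2])
  intro j hj
  have h2 := h j hj
  simp only [Nat.mod_eq_of_lt hj, Nat.zero_mod, Nat.zero_add] at h2
  exact h2

/-- Conclusion of `key` for all positions. -/
theorem all_eq {n : ℕ} {lam : ℕ → Bool} (h2 : lam 0 = lam 2) (h1 : lam 1 = lam 0)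
    (h : ∀ j < n - 2, lam (j + 2) = lam 2) : ∀ i < n, lam i = lam 0 := by
  intro i hi
  rcases i with _ | _ | j
  · rfl
  · exact h1
  · rw [h j (by omega), h2]

end I_RedPat

open I_RedPat in
/-- **RedPat.** -/
theorem RedPat_pf : S_RedPat := by
  intro L _ w n F' hw h02 h01 hP
  have hn : 4 ≤ n := four_le hw h01
  have hF : ∀ j ∈ F', j < n - 2 := hP.lt
  have hx := gdeg_x hw h02 h01 hn hF
  have hdx := hP.deg (w 0)
  have hlt : ∀ i ∈ up F', i < n := by
    intro i hi
    obtain ⟨j, hj, rfl⟩ := mem_up.1 hi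
    have := hF j hj
    omega
  have hne : (up F').Nonempty := by
    obtain ⟨j, hj⟩ := hP.ne
    exact ⟨j + 2, add_mem_up.2 hj⟩
  have h0up : 0 ∉ up F' := fun h => by have := up_ge h; omega
  have h1up : 1 ∉ up F' := fun h => by have := up_ge h; omega
  by_cases hA : gdeg w (up F') (w 0) = 1
  · -- both degrees are one
    have hB : gdeg w (up F') (w 1) = 1 := by omega
    by_contra hcon
    -- degrees of the two extensions
    have hdeg0 : ∀ z, gdeg w (insert 0 (up F')) z = 0 ∨ gdeg w (insert 0 (up F')) z = 2 := by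
      intro z
      rw [gdeg_insert w _ 0 h0up]
      by_cases z0 : z = w 0
      · subst z0
        rw [hA, if_pos rfl, if_neg (Ne.symm h01)]
        right; rfl
      · by_cases z1 : z = w 1
        · subst z1
          rw [hB, if_neg h01, if_pos rfl]
          right; rfl
        · rw [gdeg_other hw h02 h01 hn hF z0 z1, if_neg (Ne.symm z0), if_neg (Ne.symm z1)]
          exact hP.deg z
    have hdeg1 : ∀ z, gdeg w (insert 1 (up F')) z = 0 ∨ gdeg w (insert 1 (up F')) z = 2 := by
      intro z
      rw [gdeg_insert w _ 1 h1up]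
      show _ + _ + (if w 2 = z then 1 else 0) = 0 ∨ _ + _ + (if w 2 = z then 1 else 0) = 2
      rw [← h02]
      by_cases z0 : z = w 0
      · subst z0
        rw [hA, if_neg (Ne.symm h01), if_pos rfl]
        right; rfl
      · by_cases z1 : z = w 1
        · subst z1
          rw [hB, if_pos rfl, if_neg h01]
          right; rfl
        · rw [gdeg_other hw h02 h01 hn hF z0 z1, if_neg (Ne.symm z1), if_neg (Ne.symm z0)]
          exact hP.deg z
    have hno : ∀ g, g < 2 → (∀ z, gdeg w (insert g (up F')) z = 0 ∨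
        gdeg w (insert g (up F')) z = 2) → ∃ (lam : ℕ → Bool) (mu : L → Bool),
        (∀ i, lam (i + n) = lam i) ∧
        (∀ i < n, i ∉ insert g (up F') → lam i = lam (i + 1)) ∧
        (∀ i < n, i ∈ insert g (up F') → lam i = mu (w i) ∧ lam (i + 1) = mu (w (i + 1))) ∧
        ∃ i < n, lam i ≠ lam 0 := by
      intro g hg hd
      by_contra hc
      push Not at hc
      apply hcon
      refine ⟨insert g (up F'), ⟨g, Finset.mem_insert_self _ _⟩, ?_, hd, ?_⟩
      · intro i hi
        rcases Finset.mem_insert.1 hi with rfl | hi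
        · omega
        · exact hlt i hi
      · intro lam mu p1 p2 p3
        exact hc lam mu p1 p2 p3
    obtain ⟨l0, m0, a1, a2, a3, i0, hi0, a4⟩ := hno 0 (by omega) hdeg0
    obtain ⟨l1, m1, b1, b2, b3, i1, hi1, b4⟩ := hno 1 (by omega) hdeg1
    -- the labels near the position `0`
    obtain ⟨c1, c2⟩ := a3 0 (by omega) (Finset.mem_insert_self _ _)
    have c3 : l0 1 = l0 2 := a2 1 (by omega) (by
      simp only [Finset.mem_insert, not_or]
      exact ⟨by omega, h1up⟩)
    have c2' : l0 1 = m0 (w 1) := c2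
    obtain ⟨d1, d2⟩ := b3 1 (by omega) (Finset.mem_insert_self _ _)
    have d2' : l1 2 = m1 (w 0) := by rw [h02]; exact d2
    have d3 : l1 0 = l1 1 := b2 0 (by omega) (by
      simp only [Finset.mem_insert, not_or]
      exact ⟨by omega, h0up⟩)
    -- the labels elsewhere
    have as : ∀ j < n - 2, j ∉ F' → l0 (j + 2) = l0 (j + 3) := by
      intro j hj hjF
      refine a2 (j + 2) (by omega) ?_
      simp only [Finset.mem_insert, not_or]
      exact ⟨by omega, fun h => hjF (add_mem_up.1 h)⟩
    have bs : ∀ j < n - 2, j ∉ F' → l1 (j + 2) = l1 (j + 3) := by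
      intro j hj hjF
      refine b2 (j + 2) (by omega) ?_
      simp only [Finset.mem_insert, not_or]
      exact ⟨by omega, fun h => hjF (add_mem_up.1 h)⟩
    have aF : ∀ j ∈ F', l0 (j + 2) = m0 (w (j + 2)) ∧ l0 (j + 3) = m0 (w (j + 3)) := by
      intro j hj
      have := hF j hj
      exact a3 (j + 2) (by omega) (Finset.mem_insert_of_mem (add_mem_up.2 hj))
    have bF : ∀ j ∈ F', l1 (j + 2) = m1 (w (j + 2)) ∧ l1 (j + 3) = m1 (w (j + 3)) := by
      intro j hj
      have := hF j hj
      exact b3 (j + 2) (by omega) (Finset.mem_insert_of_mem (add_mem_up.2 hj))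
    have hmm : ∀ (mu : L → Bool) (m : Bool), mu (w 0) = m → mu (w 1) = m → ∀ j ∈ F',
        (w (j + 2) = w 0 ∨ w (j + 2) = w 1 → mu (w (j + 2)) = m) ∧
        (w (j + 3) = w 0 ∨ w (j + 3) = w 1 → mu (w (j + 3)) = m) := by
      intro mu m e0 e1 j _
      constructor
      · rintro (h | h)
        · rw [h, e0]
        · rw [h, e1]
      · rintro (h | h)
        · rw [h, e0]
        · rw [h, e1]
    -- the labels of the two letters are different
    have hne0 : m0 (w 0) ≠ m0 (w 1) := by
      intro he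
      have e02 : l0 0 = l0 2 := by rw [c1, ← c3, c2', he]
      have hk := key hw h02 h01 hn hP l0 m0 (m0 (w 0)) a1 e02 as aF (hmm m0 _ rfl he.symm)
      exact a4 (all_eq e02 (by rw [c3, e02]) hk i0 hi0)
    have hne1 : m1 (w 0) ≠ m1 (w 1) := by
      intro he
      have e02 : l1 0 = l1 2 := by rw [d3, d1, d2', he]
      have hk := key hw h02 h01 hn hP l1 m1 (m1 (w 0)) b1 e02 bs bF (hmm m1 _ rfl he.symm)
      exact b4 (all_eq e02 d3.symm hk i1 hi1)
    -- the sum of the two labelings
    have hl0 : xor (xor (l0 0) (l1 0)) (xor (l0 0) (l1 0)) = false := by simp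
    have hl2 : xor (xor (l0 2) (l1 2)) (xor (l0 0) (l1 0)) = false := by
      rw [← c3, c2', d2', c1, d3, d1]
      revert hne0 hne1
      generalize m0 (w 0) = p
      generalize m0 (w 1) = q
      generalize m1 (w 0) = r
      generalize m1 (w 1) = s
      revert p q r s
      decide
    have hmx : xor (xor (m0 (w 0)) (m1 (w 0))) (xor (l0 0) (l1 0)) = true := by
      rw [c1, d3, d1]
      revert hne0 hne1
      generalize m0 (w 0) = p
      generalize m0 (w 1) = q
      generalize m1 (w 0) = r
      generalize m1 (w 1) = s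
      revert p q r s
      decide
    have hmy : xor (xor (m0 (w 1)) (m1 (w 1))) (xor (l0 0) (l1 0)) = true := by
      rw [c1, d3, d1]
      revert hne0 hne1
      generalize m0 (w 0) = p
      generalize m0 (w 1) = q
      generalize m1 (w 0) = r
      generalize m1 (w 1) = s
      revert p q r s
      decide
    have hk := key hw h02 h01 hn hP
      (fun i => xor (xor (l0 i) (l1 i)) (xor (l0 0) (l1 0)))
      (fun z => xor (xor (m0 z) (m1 z)) (xor (l0 0) (l1 0))) true
      (fun i => by simp only [a1, b1]) (hl0.trans hl2.symm)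
      (fun j hj hjF => by
        show xor (xor (l0 (j + 2)) (l1 (j + 2))) _ = xor (xor (l0 (j + 3)) (l1 (j + 3))) _
        rw [as j hj hjF, bs j hj hjF])
      (fun j hj => by
        obtain ⟨p1, p2⟩ := aF j hj
        obtain ⟨q1, q2⟩ := bF j hj
        constructor
        · show xor (xor (l0 (j + 2)) (l1 (j + 2))) _ = _
          rw [p1, q1]
        · show xor (xor (l0 (j + 3)) (l1 (j + 3))) _ = _
          rw [p2, q2])
      (hmm (fun z => xor (xor (m0 z) (m1 z)) (xor (l0 0) (l1 0))) true hmx hmy)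
    obtain ⟨j, hj, hjx⟩ := gdeg_pos (w := w) (F' := F') (z := w 0) (by omega)
    obtain ⟨p1, p2⟩ := aF j hj
    obtain ⟨q1, q2⟩ := bF j hj
    have hj2 := hF j hj
    rcases hjx with hjx | hjx
    · have e : xor (xor (l0 (j + 2)) (l1 (j + 2))) (xor (l0 0) (l1 0)) =
          xor (xor (l0 2) (l1 2)) (xor (l0 0) (l1 0)) := hk j hj2
      rw [p1, q1, hjx, hmx, hl2] at e
      exact absurd e (by decide)
    · have e3 : xor (xor (l0 (j + 3)) (l1 (j + 3))) (xor (l0 0) (l1 0)) = false := by
        rcases Nat.lt_or_ge (j + 1) (n - 2) with h | h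
        · have e : xor (xor (l0 (j + 3)) (l1 (j + 3))) (xor (l0 0) (l1 0)) =
              xor (xor (l0 2) (l1 2)) (xor (l0 0) (l1 0)) := hk (j + 1) h
          exact e.trans hl2
        · have h3 : j + 3 = 0 + n := by omega
          rw [h3, a1, b1]
          simp
      rw [p2, q2, hjx, hmx] at e3
      exact absurd e3 (by decide)
  · -- the degrees are zero or two
    refine ⟨up F', hne, hlt, ?_, ?_⟩
    · intro z
      by_cases z0 : z = w 0
      · subst z0
        omega
      · by_cases z1 : z = w 1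
        · subst z1
          omega
        · rw [gdeg_other hw h02 h01 hn hF z0 z1]
          exact hP.deg z
    · intro lam mu p1 p2 p3
      have e01 : lam 0 = lam 1 := p2 0 (by omega) h0up
      have e12 : lam 1 = lam 2 := p2 1 (by omega) h1up
      have hs : ∀ j < n - 2, j ∉ F' → lam (j + 2) = lam (j + 3) := fun j hj hjF =>
        p2 (j + 2) (by omega) (fun h => hjF (add_mem_up.1 h))
      have hFF : ∀ j ∈ F', lam (j + 2) = mu (w (j + 2)) ∧ lam (j + 3) = mu (w (j + 3)) := by
        intro j hj
        have := hF j hj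
        exact p3 (j + 2) (by omega) (add_mem_up.2 hj)
      have hk : ∀ j < n - 2, lam (j + 2) = lam 2 := by
        by_cases hB : gdeg w (up F') (w 1) = 0
        · have hz := gdeg_zero hB
          refine key hw h02 h01 hn hP lam mu (mu (w 0)) p1 (e01.trans e12) hs hFF ?_
          intro j hj
          obtain ⟨z1, z2⟩ := hz j hj
          constructor
          · rintro (h | h)
            · rw [h]
            · exact absurd h z1
          · rintro (h | h)
            · rw [h]
            · exact absurd h z2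
        · have hA0 : gdeg w (up F') (w 0) = 0 := by omega
          have hz := gdeg_zero hA0
          refine key hw h02 h01 hn hP lam mu (mu (w 1)) p1 (e01.trans e12) hs hFF ?_
          intro j hj
          obtain ⟨z1, z2⟩ := hz j hj
          constructor
          · rintro (h | h)
            · exact absurd h z1
            · rw [h]
          · rintro (h | h)
            · exact absurd h z2
            · rw [h]
      exact all_eq (e01.trans e12) e01.symm hk

end Pool.Agent.Work.MP_7794fd_co.X
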