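import Pool.Agent.Work.MP_7794fd_co.X.Stmts

/-! MP_7794fd_co, block X, item RotC: rotations of a cyclic word. -/

set_option autoImplicit false

namespace Pool.Agent.Work.MP_7794fd_co.X

open Finset Pool.Agent.Work.MP_7794fd_co.R Pool.Agent.Work.MP_7794fd_co.M

namespace I_RotC

variable {L : Type} [DecidableEq L]

lemma cnt_rot (w : ℕ → L) (n k : ℕ) (hp : ∀ i, w (i + n) = w i) (x : L) :
    cnt (fun i => w (i + k)) n x = cnt w n x := by
  have hper : Function.Periodic (fun i => w i = x) n := by
    intro i
    show (w (i + n) = x) = (w i = x)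
    rw [hp i]
  have h1 := Nat.filter_Ico_card_eq_of_periodic k n (fun i => w i = x) hper
  have h2 : cnt w n x = n.count (fun i => w i = x) := by
    unfold cnt
    rw [Nat.count_eq_card_filter_range]
  rw [h2, ← h1]
  unfold cnt
  refine card_bij (fun i _ => i + k) ?_ ?_ ?_
  · intro i hi
    simp only [mem_filter, mem_range, mem_Ico] at hi ⊢
    exact ⟨⟨by omega, by omega⟩, hi.2⟩
  · intro i _ j _ h
    omega
  · intro j hj
    simp only [mem_filter, mem_Ico] at hj
    refine ⟨j - k, ?_, by omega⟩
    simp only [mem_filter, mem_range]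
    refine ⟨by omega, ?_⟩
    rw [Nat.sub_add_cancel hj.1.1]
    exact hj.2

lemma mem_Lts (w : ℕ → L) (n : ℕ) (x : L) : x ∈ Lts w n ↔ 0 < cnt w n x := by
  unfold Lts cnt
  rw [card_pos]
  simp only [mem_image, mem_range, Finset.Nonempty, mem_filter]

lemma Lts_rot (w : ℕ → L) (n k : ℕ) (hp : ∀ i, w (i + n) = w i) :
    Lts (fun i => w (i + k)) n = Lts w n := by
  ext x
  rw [mem_Lts, mem_Lts, cnt_rot w n k hp x]

end I_RotC

open I_RotC in
theorem RotC_pf : S_RotC := by
  intro L _ w n k h
  have hc := fun x => cnt_rot w n k h.per x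
  have hL := Lts_rot w n k h.per
  refine ⟨⟨h.pos, ?_, ?_⟩, hL, hc, ?_⟩
  · intro i
    show w (i + n + k) = w (i + k)
    rw [← h.per (i + k)]
    congr 1
    omega
  · intro x hx
    rw [hc x]
    rw [hL] at hx
    exact h.mult x hx
  · rintro (⟨k', F, hF⟩ | hE)
    · left
      refine ⟨k' + k, F, ?_⟩
      have : (fun i => w (i + (k' + k))) = fun i => (fun i => w (i + k)) (i + k') := by
        funext i
        show w (i + (k' + k)) = w (i + k' + k)
        rw [Nat.add_assoc]
      rw [this]
      exact hF
    · right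
      refine ⟨?_, ?_, ?_⟩
      · rw [← hL]; exact hE.big
      · intro x hx
        rw [← hc x]
        rw [← hL] at hx
        exact hE.cnt23 x hx
      · rw [← hL, ← hE.two]
        congr 1
        apply filter_congr
        intro x _
        rw [hc x]

end Pool.Agent.Work.MP_7794fd_co.X
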