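import Pool.Agent.Work.MP_7794fd_co.X.Stmts
import Pool.Agent.Work.MP_7794fd_co.M.I_Single

/-! Project MP_7794fd_co, block X: the theorem on words. -/

set_option autoImplicit false

namespace Pool.Agent.Work.MP_7794fd_co.X

open Finset Pool.Agent.Work.MP_7794fd_co.R Pool.Agent.Work.MP_7794fd_co.M

namespace I_Word

/-- The letters of the code of the root words. -/
theorem root_lt (d : ℕ) (h3 : 3 ≤ d) (h8 : d ≤ 8) : ∀ i < d, lt (rootU d) i = i := by
  interval_cases d <;> simp only [rootU, Finset.sum_range_succ, Finset.sum_range_zero] <;>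
    decide +kernel

/-- The last letter of the root words. -/
theorem root_last (d : ℕ) (h3 : 3 ≤ d) (h8 : d ≤ 8) : lt (rootU d) d = 0 := by
  interval_cases d <;> simp only [rootU, Finset.sum_range_succ, Finset.sum_range_zero] <;>
    decide +kernel

/-- The size of the code. -/
theorem root_small (d : ℕ) (h3 : 3 ≤ d) (h8 : d ≤ 8) : rootU d < 8 ^ (d + 1) := by
  interval_cases d <;> simp only [rootU, Finset.sum_range_succ, Finset.sum_range_zero] <;>
    norm_num

/-- A repeated letter at distance less than the length. -/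
theorem exists_close {L : Type} [DecidableEq L] {w : ℕ → L} {n : ℕ} (h : Cyc w n) :
    ∃ d, 0 < d ∧ d < n ∧ ∃ i, w i = w (i + d) := by
  have hn := h.pos
  have h0 : w 0 ∈ Lts w n := mem_image.2 ⟨0, mem_range.2 (by omega), rfl⟩
  have h2 := h.mult (w 0) h0
  unfold cnt at h2
  obtain ⟨a, ha, b, hb, hab⟩ := Finset.one_lt_card.1 (show 1 < _ from h2)
  rw [mem_filter, mem_range] at ha hb
  rcases Nat.lt_or_gt_of_ne hab with hlt | hlt
  · refine ⟨b - a, by omega, by omega, a, ?_⟩
    rw [show a + (b - a) = b by omega, ha.2, hb.2]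
  · refine ⟨a - b, by omega, by omega, b, ?_⟩
    rw [show b + (a - b) = a by omega, ha.2, hb.2]

end I_Word

open I_Word in
theorem Word_pf (h1 : S_RotC) (h2 : S_Red) (h3 : S_RedCyc) (h4 : S_Trees) : S_Word := by
  classical
  intro L _ w n
  induction hm : (Lts w n).card using Nat.strong_induction_on generalizing w n with
  | _ m IH =>
    intro hw hcard
    have hex : ∃ d, 0 < d ∧ ∃ i, w i = w (i + d) := by
      obtain ⟨d, hd, -, hi⟩ := exists_close hw
      exact ⟨d, hd, hi⟩
    obtain ⟨d, hd, hmin⟩ : ∃ d, (0 < d ∧ ∃ i, w i = w (i + d)) ∧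
        ∀ e < d, ¬ (0 < e ∧ ∃ i, w i = w (i + e)) :=
      ⟨Nat.find hex, Nat.find_spec hex, fun e he => Nat.find_min hex he⟩
    obtain ⟨hd0, i0, hi0⟩ := hd
    have hdn : d < n := by
      obtain ⟨e, he0, hen, hi⟩ := exists_close hw
      by_contra hcon
      exact hmin e (by omega) ⟨he0, hi⟩
    obtain ⟨hv, hL, -, hback⟩ := h1 w n i0 hw
    apply hback
    obtain ⟨v, hvdef⟩ : ∃ v : ℕ → L, v = fun i => w (i + i0) := ⟨_, rfl⟩
    rw [← hvdef] at hv hL ⊢
    have hvd : v 0 = v d := by
      rw [hvdef]
      simp only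
      rw [Nat.zero_add, hi0, Nat.add_comm]
    have hfar : ∀ i j, i < j → j < i + d → v i ≠ v j := by
      intro i j hij hjd hcon
      refine hmin (j - i) (by omega) ⟨by omega, i + i0, ?_⟩
      rw [hvdef] at hcon
      simp only at hcon
      rw [hcon]
      congr 1
      omega
    have hcv : (Lts v n).card = m := by rw [hL, hm]
    by_cases hd1 : d = 1
    · subst hd1
      refine Or.inl ⟨0, {0}, ?_⟩
      exact Single_pf (fun i => v (i + 0)) n 0 (by omega) (by simpa using hvd)
    by_cases hd2 : d = 2
    · subst hd2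
      have h01 : v 0 ≠ v 1 := hfar 0 1 (by omega) (by omega)
      obtain ⟨hc, hlt, -⟩ := h3 v n hv hvd h01
      refine h2 v n hv hvd h01 ?_
      refine IH (Lts (red v n) (n - 2)).card (by omega) (red v n) (n - 2) rfl hc (by omega)
    have hd8 : d ≤ 8 := by
      have hle : d ≤ (Lts v n).card := by
        have h5 : ((range d).image v).card = d := by
          rw [card_image_of_injOn, card_range]
          intro a ha b hb hab
          rw [coe_range, Set.mem_Iio] at ha hb
          by_contra hne
          rcases Nat.lt_or_gt_of_ne hne with hlt | hlt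
          · exact hfar a b hlt (by omega) hab
          · exact hfar b a hlt (by omega) hab.symm
        calc d = ((range d).image v).card := h5.symm
          _ ≤ (Lts v n).card := card_le_card (image_subset_image (range_subset_range.2 hdn.le))
      omega
    have hd3 : 3 ≤ d := by omega
    refine h4 d hd3 hd8 v n v ⟨hv, hfar, by omega⟩ ⟨by omega, root_small d hd3 hd8, ?_, ?_, ?_⟩
    · intro i hi
      by_cases hid : i < d
      · rw [root_lt d hd3 hd8 i hid]
        exact ⟨hid, rfl⟩
      · have hid' : i = d := by omega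
        rw [hid', root_last d hd3 hd8]
        exact ⟨hd0, hvd.symm⟩
    · intro x hx y hy hxy
      by_contra hne
      rcases Nat.lt_or_gt_of_ne hne with hlt | hlt
      · exact hfar x y hlt (by omega) hxy
      · exact hfar y x hlt (by omega) hxy.symm
    · intro x hx
      exact ⟨x, by omega, root_lt d hd3 hd8 x hx⟩

end Pool.Agent.Work.MP_7794fd_co.X
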