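import Pool.Agent.Work.MP_7794fd_co.X.Stmts
import Pool.Agent.Work.MP_7794fd_co.R.Cyc

/-! Project MP_7794fd_co, block X, item WordG: the cyclic word of a circuit. -/

set_option autoImplicit false

namespace Pool.Agent.Work.MP_7794fd_co.X

open Finset Pool.Agent.Work.MP_7794fd_co.R Pool.Agent.Work.MP_7794fd_co.M

namespace I_WordG

/-- the class of `v` -/
def brs {V E : Type} [Fintype V] [DecidableEq V] [Fintype E] [DecidableEq E] (G : MG V E)
    (C : Finset E) (v : V) : Set V := {x | x ∈ verts G C ∧ SameBridge G C ∅ v x}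

end I_WordG

open I_WordG in
theorem WordG_pf (h : S_Br) : S_WordG := by
  intro V E _ _ _ _ _ G C hG hC h2
  obtain ⟨hb1, hb2, hsy, htr⟩ := h G C hG hC
  obtain ⟨e, he⟩ := hC.nonempty
  obtain ⟨x, hx⟩ : ∃ x, x ∈ G.ends e := by
    induction G.ends e with
    | _ a b => exact ⟨a, Sym2.mem_mk_left a b⟩
  obtain ⟨n, f, c, hcyc, -⟩ := I_Cyc G C hC x ⟨e, he, hx⟩
  have hn2 : 2 ≤ n := hcyc.two
  have hn : 0 < n := by omega
  have hmem : ∀ i, f (i % n) ∈ verts G C := fun i =>
    (hcyc.memf _).2 ⟨i % n, Nat.mod_lt _ hn, rfl⟩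
  have hself : ∀ v ∈ verts G C, v ∈ brs G C v := fun v hv => ⟨hv, Or.inl rfl⟩
  have hiff : ∀ v ∈ verts G C, ∀ u ∈ verts G C, brs G C v = brs G C u ↔
      SameBridge G C ∅ v u := by
    intro v hv u hu
    constructor
    · intro heq
      have h3 : u ∈ brs G C v := by
        rw [heq]
        exact hself u hu
      exact h3.2
    · intro hs
      ext z
      constructor
      · rintro ⟨hz, hz2⟩
        exact ⟨hz, htr u hu v hv z hz (hsy v hv u hu hs) hz2⟩
      · rintro ⟨hz, hz2⟩
        exact ⟨hz, htr v hv u hu z hz hs hz2⟩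
  have hA : ∀ A ∈ bridgeSets G C, ∀ v ∈ A, v ∈ verts G C ∧ A = brs G C v := hb2
  have hw : ∀ i, i < n → brs G C (f (i % n)) = brs G C (f i) := fun i hi => by
    rw [Nat.mod_eq_of_lt hi]
  have hLts : ∀ A, A ∈ Lts (fun i => brs G C (f (i % n))) n ↔ A ∈ bridgeSets G C := by
    intro A
    unfold Lts
    rw [Finset.mem_image]
    constructor
    · rintro ⟨i, -, rfl⟩
      exact hb1 _ (hmem i)
    · intro hAb
      obtain ⟨v, hv⟩ := hAb.1
      obtain ⟨hvC, hAv⟩ := hA A hAb v hv
      obtain ⟨i, hi, rfl⟩ := (hcyc.memf v).1 hvC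
      exact ⟨i, Finset.mem_range.2 hi, by simp only [hw i hi]; exact hAv.symm⟩
  have hcnt : ∀ A ∈ bridgeSets G C,
      cnt (fun i => brs G C (f (i % n))) n A = A.ncard := by
    intro A hAb
    unfold cnt
    have h3 : A = (((range n).filter fun i => brs G C (f (i % n)) = A).image f : Finset V) := by
      ext v
      simp only [Finset.coe_image, Finset.coe_filter, Finset.mem_range, Set.mem_image,
        Set.mem_setOf_eq]
      constructor
      · intro hv
        obtain ⟨hvC, hAv⟩ := hA A hAb v hv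
        obtain ⟨i, hi, rfl⟩ := (hcyc.memf v).1 hvC
        exact ⟨i, ⟨hi, by rw [hw i hi]; exact hAv.symm⟩, rfl⟩
      · rintro ⟨i, ⟨hi, hiA⟩, rfl⟩
        rw [hw i hi] at hiA
        rw [← hiA]
        exact hself _ ((hcyc.memf _).2 ⟨i, hi, rfl⟩)
    have h4 : A.ncard = (((range n).filter fun i => brs G C (f (i % n)) = A).image f).card := by
      conv_lhs => rw [h3]
      exact Set.ncard_coe_finset _
    rw [h4, Finset.card_image_of_injOn]
    intro i hi j hj hij
    simp only [Finset.coe_filter, Finset.mem_range, Set.mem_setOf_eq] at hi hj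
    exact hcyc.injf i hi.1 j hj.1 hij
  refine ⟨n, f, c, fun i => brs G C (f (i % n)), hcyc, ⟨hn2, ?_, ?_⟩, ?_, hLts, hcnt⟩
  · intro i
    simp only [Nat.add_mod_right]
  · intro A hAL
    have hAb := (hLts A).1 hAL
    rw [hcnt A hAb]
    exact h2 A hAb
  · intro i j
    exact hiff _ (hmem i) _ (hmem j)

end Pool.Agent.Work.MP_7794fd_co.X
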