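/-! Project MP_7794fd_co, block X: circuits with at most eight Tutte bridges.  The checker (no
imports, so that the files of the search tree are checked quickly). -/

set_option autoImplicit false

namespace Pool.Agent.Work.MP_7794fd_co.X

noncomputable section

/-- branching for the kernel -/
def br (c x y : Bool) : Bool := Bool.rec y x c

/-- branching for the kernel -/
def brN (c : Bool) (x y : Nat) : Nat := Bool.rec y x c

/-- letter number `i` of the word with code `u` -/
def lt (u i : Nat) : Nat := Nat.mod (Nat.div u (Nat.pow 8 i)) 8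

/-- the mask of the interval with the ends `s`, `t` -/
def ivl (s t : Nat) : Nat :=
  brN (Nat.ble s t) (Nat.sub (Nat.pow 2 (Nat.succ t)) (Nat.pow 2 s))
    (Nat.sub (Nat.pow 2 (Nat.succ s)) (Nat.pow 2 t))

/-- one step of `walk`: the interval with the mask `I` ends at a position with the letter `x` -/
def wst (u LM CM s' x I P : Nat) (ih : Nat → Nat → Nat → Nat → Bool) : Bool :=
  br (Nat.beq (lt u s') x) (br (Nat.beq (Nat.land LM (Nat.pow 2 x)) 0)
    (br (Nat.beq (Nat.land CM I) 0) (ih s' (Nat.lor LM (Nat.pow 2 x)) (Nat.lor CM I) P) false)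
    false) false

/-- walk along the new curve: `s` is the present position (the start of an interval), `LM` the mask
of the letters used, `CM` the mask of the positions visited, `P` gives the end of the interval and
the start of the next one, and so on -/
def walk (u q k : Nat) : Nat → Nat → Nat → Nat → Bool :=
  Nat.rec (fun s _ CM _ => br (Nat.beq (Nat.succ CM) (Nat.pow 2 s)) (Nat.ble s q) false)
    (fun _ ih s LM CM P => wst u LM CM (Nat.mod (Nat.div P 32) 32) (lt u (Nat.mod P 32))
      (ivl s (Nat.mod P 32)) (Nat.div P 1024) ih) k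

/-- `P` describes a pattern with `k` gaps of the word `u` with the positions `0, ..., q` -/
def pat (u q k P : Nat) : Bool := br (Nat.beq k 0) false (walk u q k 0 0 0 P)

/-- membership in a list of codes -/
def mem (U : Nat) (R : List Nat) : Bool := List.rec false (fun a _ r => br (Nat.beq a U) true r) R

/-- the mask of the last `k` letters of a word of length `l` -/
def lastM (u l k : Nat) : Nat :=
  Nat.rec 0 (fun j r => Nat.lor r (Nat.pow 2 (lt u (Nat.sub l (Nat.succ j))))) k

/-- rotate the word of length `l` by `k` -/
def rotW (u l k : Nat) : Nat :=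
  Nat.add (Nat.div u (Nat.pow 8 k)) (Nat.mul (Nat.mod u (Nat.pow 8 k)) (Nat.pow 8 (Nat.sub l k)))

/-- two equal letters at cyclic distance `e < d`, one of them at the position `i` -/
def violE (u l i d : Nat) : Bool :=
  Nat.rec false (fun e r => br (Nat.beq (lt u i) (lt u (Nat.mod (Nat.add i (Nat.succ e)) l))) true r)
    (Nat.sub d 1)

/-- two equal letters at cyclic distance less than `d` -/
def viol (u l d : Nat) : Bool := Nat.rec false (fun i r => br (violE u l i d) true r) l

/-- the number of the occurrences of the letter `x` in the word `u` of length `l` -/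
def cntL (u l x : Nat) : Nat := Nat.rec 0 (fun i r => brN (Nat.beq (lt u i) x) (Nat.succ r) r) l

/-- number of the letters `x < c` which occur three times, at least `100` if some letter `x < c` does
not occur two or three times -/
def num3 (u l c : Nat) : Nat :=
  Nat.rec 0 (fun x r => brN (Nat.beq (cntL u l x) 2) r
    (brN (Nat.beq (cntL u l x) 3) (Nat.succ r) 100)) c

/-- exceptional words -/
def exc (u l c : Nat) : Bool := br (Nat.ble 7 c) (Nat.beq (num3 u l c) 2) false

/-- the test of the complete word; the result is `0` (failure) or the rest of the stream plus one -/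
def comp (d u l c S1 S2 S : Nat) : Nat :=
  brN (Nat.beq S1 S2)
    (brN (viol u l d) (Nat.succ S)
      (brN (exc u l c) (Nat.succ S)
        (brN (br (Nat.ble (Nat.mod S 32) l)
            (pat (rotW u l (Nat.mod S 32)) (Nat.sub l 1) (Nat.mod (Nat.div S 32) 32)
              (Nat.mod (Nat.div S 1024) (Nat.pow 1024 (Nat.mod (Nat.div S 32) 32)))) false)
          (Nat.succ (Nat.div (Nat.div S 1024) (Nat.pow 1024 (Nat.mod (Nat.div S 32) 32)))) 0)))
    (Nat.succ S)

/-- one child (letter `x`, new word `v` of length `l + 1`), `g` is the next digit of the stream and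
`S` the rest -/
def kid (R : List Nat) (v l c S1 S2 x g S : Nat) (ih : Nat → Nat → Nat → Nat → Nat → Nat → Nat)
    (go : Nat → Nat → Nat) : Nat :=
  brN (Nat.beq g 0)
    (Nat.rec 0 (fun S' _ => go (Nat.succ x) S')
      (ih v (Nat.succ l) (brN (Nat.beq x c) (Nat.succ c) c) (Nat.lor S1 (Nat.pow 2 x))
        (brN (Nat.beq x c) S2 (Nat.lor S2 (Nat.pow 2 x))) S))
    (brN (Nat.beq g 1) (brN (mem (Nat.add v (Nat.pow 8 (Nat.succ l))) R) (go (Nat.succ x) S) 0)
      (brN (pat v l g (Nat.mod S (Nat.pow 1024 g))) (go (Nat.succ x) (Nat.div S (Nat.pow 1024 g)))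
        0))

/-- the children of a node -/
def kids (R : List Nat) (u l c S1 S2 Q : Nat) (ih : Nat → Nat → Nat → Nat → Nat → Nat → Nat)
    (cnt : Nat) : Nat → Nat → Nat :=
  Nat.rec (fun _ S => Nat.succ S)
    (fun _ go x S => brN (Nat.beq (Nat.mod (Nat.div Q (Nat.pow 2 x)) 2) 1) (go (Nat.succ x) S)
      (kid R (Nat.add u (Nat.mul x (Nat.pow 8 l))) l c S1 S2 x (Nat.mod S 32) (Nat.div S 32) ih go))
    cnt

/-- a node of the tree: word `u` of length `l` with the letters `< c`, masks `S1` (letters used),
`S2` (letters used twice), stream `S` -/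
def node (m d : Nat) (R : List Nat) (fuel : Nat) : Nat → Nat → Nat → Nat → Nat → Nat → Nat :=
  Nat.rec (fun _ _ _ _ _ _ => 0)
    (fun _ ih u l c S1 S2 S =>
      Nat.rec 0 (fun S' _ => kids R u l c S1 S2 (lastM u l (Nat.sub d 1)) ih
        (brN (Nat.beq c m) m (Nat.succ c)) 0 S') (comp d u l c S1 S2 S)) fuel

/-- the mask of the letters which occur among the first `l` letters -/
def occ1 (u l : Nat) : Nat := Nat.rec 0 (fun i r => Nat.lor r (Nat.pow 2 (lt u i))) l

/-- the mask of the letters which occur twice among the first `l` letters -/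
def occ2 (u l : Nat) : Nat :=
  Nat.rec 0 (fun i r => Nat.lor r (Nat.land (occ1 u i) (Nat.pow 2 (lt u i)))) l

/-- the test for the tree below the word `u` of length `l` with the letters `0, ..., c - 1` -/
def run (m d : Nat) (R : List Nat) (u l c S : Nat) : Bool :=
  br (Nat.beq (Nat.succ (occ1 u l)) (Nat.pow 2 c))
    (Nat.beq (node m d R 30 u l c (occ1 u l) (occ2 u l) S) 1) false

end

end Pool.Agent.Work.MP_7794fd_co.X
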