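import Pool.Agent.Work.MP_7794fd_co.M.Stmts
import Pool.Agent.Work.MP_7794fd_co.X.Chk

/-! Project MP_7794fd_co, block X: circuits with at most eight Tutte bridges.  The checker is in
`X/Chk.lean`. -/
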