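import Pool.Agent.Work.MP_7794fd_co.X.Stmts

/-! Item X CPof: a cyclic pattern gives a pattern of a rotation.  Author: helper64. -/

set_option autoImplicit false

namespace Pool.Agent.Work.MP_7794fd_co.X

open Finset Pool.Agent.Work.MP_7794fd_co.R Pool.Agent.Work.MP_7794fd_co.M

namespace I_CPof

/-- rotation of the gaps -/
def sg (n k j : ℕ) : ℕ := if j + k < n then j + k else j + k - n

/-- the inverse rotation -/
def ta (n k i : ℕ) : ℕ := if i < k then i + n - k else i - k

theorem sg_lt {n k j : ℕ} (hk : k ≤ n) (hj : j < n) : sg n k j < n := by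
  unfold sg; split <;> omega

theorem ta_lt {n k i : ℕ} (hk : k ≤ n) (hi : i < n) : ta n k i < n := by
  unfold ta; split <;> omega

theorem ta_sg {n k j : ℕ} (hk : k ≤ n) (hj : j < n) : ta n k (sg n k j) = j := by
  unfold ta sg; split <;> split <;> omega

theorem sg_ta {n k i : ℕ} (hk : k ≤ n) (hi : i < n) : sg n k (ta n k i) = i := by
  unfold ta sg; split <;> split <;> omega

variable {L : Type}

theorem w_sg {w : ℕ → L} {n : ℕ} (hp : ∀ i, w (i + n) = w i) (k j : ℕ) :
    w (j + k) = w (sg n k j) := by
  unfold sg
  split
  · rfl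
  · conv_lhs => rw [show j + k = j + k - n + n by omega]
    rw [hp]

theorem w_sg1 {w : ℕ → L} {n : ℕ} (hp : ∀ i, w (i + n) = w i) (k j : ℕ) :
    w (j + 1 + k) = w (sg n k j + 1) := by
  unfold sg
  split
  · congr 1; omega
  · conv_lhs => rw [show j + 1 + k = j + k - n + 1 + n by omega]
    rw [hp]

end I_CPof

open I_CPof

theorem CPof_pf : S_CPof := by
  intro L _ w n F hC hF
  have hn := hC.pos
  have hp := hC.per
  -- a gap which is not in F
  obtain ⟨g, hgn, hgF⟩ : ∃ g < n, g ∉ F := by
    by_contra hno
    push Not at hno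
    have h1 : 2 ≤ (F.filter fun i => w i = w 0).card := by
      have h2 := hC.mult (w 0) (Finset.mem_image_of_mem w (Finset.mem_range.mpr (by omega)))
      refine h2.trans (Finset.card_le_card fun i hi => ?_)
      rw [Finset.mem_filter] at hi ⊢
      exact ⟨hno i (Finset.mem_range.mp hi.1), hi.2⟩
    have h3 : 1 ≤ (F.filter fun i => w (i + 1) = w 0).card := by
      refine Finset.card_pos.mpr ⟨n - 1, ?_⟩
      rw [Finset.mem_filter]
      refine ⟨hno _ (by omega), ?_⟩
      rw [show n - 1 + 1 = 0 + n by omega, hp]
    have h4 := hF.deg (w 0)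
    unfold gdeg at h4
    omega
  have hk : g + 1 ≤ n := hgn
  set k := g + 1 with hkdef
  have hsgn : sg n k (n - 1) = g := by
    unfold sg; split <;> omega
  have htan : ta n k g = n - 1 := by
    unfold ta; split <;> omega
  set F' := (range n).filter (fun j => sg n k j ∈ F) with hF'
  have memF' : ∀ j, j ∈ F' ↔ j < n ∧ sg n k j ∈ F := by
    intro j; rw [hF', Finset.mem_filter, Finset.mem_range]
  have ltF' : ∀ j ∈ F', j + 1 < n := by
    intro j hj
    rw [memF'] at hj
    by_contra hcon
    have : j = n - 1 := by omega
    rw [this, hsgn] at hj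
    exact hgF hj.2
  refine ⟨k, F', ?_, ltF', ?_, ?_⟩
  · obtain ⟨i, hi⟩ := hF.ne
    exact ⟨ta n k i, (memF' _).mpr ⟨ta_lt hk (hF.lt i hi), by rw [sg_ta hk (hF.lt i hi)]; exact hi⟩⟩
  · intro x
    have e1 : (F'.filter fun j => w (j + k) = x).card = (F.filter fun i => w i = x).card := by
      refine Finset.card_nbij' (sg n k) (ta n k) ?_ ?_ ?_ ?_
      · intro j hj
        rw [Finset.mem_coe, Finset.mem_filter, memF'] at hj
        rw [Finset.mem_coe, Finset.mem_filter]
        exact ⟨hj.1.2, by rw [← w_sg hp]; exact hj.2⟩
      · intro i hi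
        rw [Finset.mem_coe, Finset.mem_filter] at hi
        have hin := hF.lt i hi.1
        rw [Finset.mem_coe, Finset.mem_filter, memF']
        exact ⟨⟨ta_lt hk hin, by rw [sg_ta hk hin]; exact hi.1⟩,
          by rw [w_sg hp, sg_ta hk hin]; exact hi.2⟩
      · intro j hj
        rw [Finset.mem_coe, Finset.mem_filter, memF'] at hj
        exact ta_sg hk hj.1.1
      · intro i hi
        rw [Finset.mem_coe, Finset.mem_filter] at hi
        exact sg_ta hk (hF.lt i hi.1)
    have e2 : (F'.filter fun j => w (j + 1 + k) = x).card =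
        (F.filter fun i => w (i + 1) = x).card := by
      refine Finset.card_nbij' (sg n k) (ta n k) ?_ ?_ ?_ ?_
      · intro j hj
        rw [Finset.mem_coe, Finset.mem_filter, memF'] at hj
        rw [Finset.mem_coe, Finset.mem_filter]
        exact ⟨hj.1.2, by rw [← w_sg1 hp]; exact hj.2⟩
      · intro i hi
        rw [Finset.mem_coe, Finset.mem_filter] at hi
        have hin := hF.lt i hi.1
        rw [Finset.mem_coe, Finset.mem_filter, memF']
        exact ⟨⟨ta_lt hk hin, by rw [sg_ta hk hin]; exact hi.1⟩,
          by rw [w_sg1 hp, sg_ta hk hin]; exact hi.2⟩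
      · intro j hj
        rw [Finset.mem_coe, Finset.mem_filter, memF'] at hj
        exact ta_sg hk hj.1.1
      · intro i hi
        rw [Finset.mem_coe, Finset.mem_filter] at hi
        exact sg_ta hk (hF.lt i hi.1)
    have h := hF.deg x
    unfold gdeg at h ⊢
    beta_reduce
    rw [e1, e2]
    exact h
  · intro lam mu hc h0 j hj
    -- labels of the cyclic word
    have key := hF.conn (fun i => lam (ta n k (i % n))) mu
      (by intro i; simp only [Nat.add_mod_right]) ?_ ?_
    · have h5 : ∀ i < n, lam i = lam (ta n k (0 % n)) := by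
        intro i hi
        have h6 := key (sg n k i) (sg_lt hk hi)
        beta_reduce at h6
        rw [Nat.mod_eq_of_lt (sg_lt hk hi), ta_sg hk hi] at h6
        exact h6
      rw [h5 j hj, h5 0 (by omega)]
    · intro i hi hiF
      beta_reduce
      rw [Nat.mod_eq_of_lt hi]
      by_cases hig : i = g
      · subst hig
        rw [htan]
        by_cases h7 : i + 1 < n
        · rw [Nat.mod_eq_of_lt h7]
          have : ta n k (i + 1) = 0 := by unfold ta; split <;> omega
          rw [this, h0]
        · have h8 : i + 1 = n := by omega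
          rw [h8, Nat.mod_self]
          have : ta n k 0 = 0 := by unfold ta; split <;> omega
          rw [this, h0]
      · have h9 : ta n k i + 1 < n := by
          have := ta_lt hk hi
          by_contra hcon
          have h10 : ta n k i = n - 1 := by omega
          have h11 := sg_ta hk hi
          rw [h10, hsgn] at h11
          exact hig h11.symm
        have h12 : ta n k ((i + 1) % n) = ta n k i + 1 := by
          by_cases h7 : i + 1 < n
          · rw [Nat.mod_eq_of_lt h7]
            unfold ta at h9 ⊢
            split at h9 <;> split <;> omega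
          · have h8 : i + 1 = n := by omega
            rw [h8, Nat.mod_self]
            unfold ta at h9 ⊢
            split at h9 <;> split <;> omega
        rw [h12]
        refine hc.seg _ (Nat.zero_le _) (by omega) ?_
        intro hcon
        rw [memF', sg_ta hk hi] at hcon
        exact hiF hcon.2
    · intro i hi hiF
      beta_reduce
      rw [Nat.mod_eq_of_lt hi]
      have hmem : ta n k i ∈ F' := (memF' _).mpr ⟨ta_lt hk hi, by rw [sg_ta hk hi]; exact hiF⟩
      have h9 := ltF' _ hmem
      have h12 : ta n k ((i + 1) % n) = ta n k i + 1 := by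
        by_cases h7 : i + 1 < n
        · rw [Nat.mod_eq_of_lt h7]
          unfold ta at h9 ⊢
          split at h9 <;> split <;> omega
        · have h8 : i + 1 = n := by omega
          rw [h8, Nat.mod_self]
          unfold ta at h9 ⊢
          split at h9 <;> split <;> omega
      rw [h12]
      have h13 := hc.fst _ (Nat.zero_le _) (by omega) hmem
      have h14 := hc.snd _ (Nat.zero_le _) (by omega) hmem
      beta_reduce at h13 h14
      rw [w_sg hp, sg_ta hk hi] at h13
      rw [w_sg1 hp, sg_ta hk hi] at h14
      exact ⟨h13, h14⟩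

end Pool.Agent.Work.MP_7794fd_co.X
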