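import Pool.Agent.Work.MP_7794fd_co.X.I_Node

/-! Block X: the words which are given by a number `u + 8 ^ l`. -/

set_option autoImplicit false

namespace Pool.Agent.Work.MP_7794fd_co.X

open Finset Pool.Agent.Work.MP_7794fd_co.R Pool.Agent.Work.MP_7794fd_co.M

namespace I_List

open I_Walk I_Node

theorem run_true {m d : ℕ} {R : List ℕ} {u l c S : ℕ} (h : run m d R u l c S = true) :
    occ1 u l + 1 = 2 ^ c ∧ node m d R 30 u l c (occ1 u l) (occ2 u l) S = 0 + 1 := by
  unfold run at h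
  rw [br_true] at h
  rcases h with ⟨h1, h2⟩ | ⟨_, h2⟩
  · rw [beq_t] at h1 h2
    exact ⟨h1, h2⟩
  · simp at h2

/-- the number of letters is determined by the word -/
theorem uniq {L : Type} [DecidableEq L] {w : ℕ → L} {n u l c c' : ℕ} {φ : ℕ → L}
    (h : occ1 u l + 1 = 2 ^ c) (hP : Pre w n u l c' φ) : c' = c := by
  have h1 : ∀ x, (occ1 u l).testBit x = true ↔ x < c' := by
    intro x
    rw [occ1_spec]
    constructor
    · rintro ⟨i, hi, rfl⟩
      exact (hP.let' i hi).1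
    · intro hx; exact hP.occ x hx
  have h2 : occ1 u l = 2 ^ c - 1 := by omega
  have h3 : ∀ x, (occ1 u l).testBit x = true ↔ x < c := by
    intro x
    rw [h2, Nat.testBit_two_pow_sub_one]
    simp
  have h4 : ∀ x, x < c' ↔ x < c := fun x => (h1 x).symm.trans (h3 x)
  have h5 := h4 c
  have h6 := h4 c'
  omega

end I_List

/-- every word which begins like the word number `U = u + 8 ^ l` is fine -/
def GoodC (m d U : ℕ) : Prop := ∀ u l c, U = u + 8 ^ l → u < 8 ^ l → GoodW m d u l c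

theorem code_inj {u l u' l' : ℕ} (h : u + 8 ^ l = u' + 8 ^ l') (hu : u < 8 ^ l)
    (hu' : u' < 8 ^ l') : u = u' ∧ l = l' := by
  have h11 : l = l' := by
    rcases Nat.lt_trichotomy l l' with h1 | h1 | h1
    · have h12 : 8 ^ (l + 1) ≤ 8 ^ l' := Nat.pow_le_pow_right (by norm_num) h1
      rw [pow_succ] at h12
      omega
    · exact h1
    · have h12 : 8 ^ (l' + 1) ≤ 8 ^ l := Nat.pow_le_pow_right (by norm_num) h1
      rw [pow_succ] at h12
      omega
  subst h11
  exact ⟨by omega, rfl⟩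

theorem nilC {m d : ℕ} : ∀ U ∈ ([] : List ℕ), GoodC m d U := by
  intro U h; simp at h

theorem consC {m d U : ℕ} {R : List ℕ} (h : GoodC m d U) (hR : ∀ V ∈ R, GoodC m d V) :
    ∀ V ∈ U :: R, GoodC m d V := List.forall_mem_cons.2 ⟨h, hR⟩

theorem goodC {m d : ℕ} {R : List ℕ} {u l c S U : ℕ} (hm : m ≤ 8) (hl : 1 ≤ l)
    (hu : u < 8 ^ l) (hU : U = u + 8 ^ l) (h : run m d R u l c S = true)
    (hR : ∀ V ∈ R, GoodC m d V) : GoodC m d U := by
  intro u' l' c' hU' hu' L _ w n φ hF hP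
  obtain ⟨rfl, rfl⟩ := code_inj (hU'.symm.trans hU) hu' hu
  obtain ⟨h1, h2⟩ := I_List.run_true h
  obtain rfl := I_List.uniq h1 hP
  refine Node_pf m d R 30 u' l' c' S 0 hl hm h2 ?_ w n φ hF hP
  intro u'' l'' c'' _ hmem hsm
  exact hR _ hmem u'' l'' c'' rfl hsm

end Pool.Agent.Work.MP_7794fd_co.X
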