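import Pool.Agent.Work.MP_7794fd_co.X.I_Walk

/-! Block X, item Node: soundness of the tree check. -/

set_option autoImplicit false

namespace Pool.Agent.Work.MP_7794fd_co.X

open Finset Pool.Agent.Work.MP_7794fd_co.R Pool.Agent.Work.MP_7794fd_co.M

namespace I_Node

open I_Walk

theorem mem_true {U : ℕ} : ∀ {R : List ℕ}, mem U R = true → U ∈ R := by
  intro R
  induction R with
  | nil => intro h; exact absurd h (by show ¬ (false = true); simp)
  | cons a R ih =>
    intro h
    have h1 : br (Nat.beq a U) true (mem U R) = true := h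
    rw [br_true] at h1
    rcases h1 with ⟨h1, _⟩ | ⟨_, h1⟩
    · rw [beq_t] at h1; simp [h1]
    · exact List.mem_cons_of_mem _ (ih h1)

/-! ### digits -/

theorem lt_add {u l x i : ℕ} (hu : u < 8 ^ l) (hx : x < 8) :
    lt (u + x * 8 ^ l) i = if i < l then lt u i else if i = l then x else 0 := by
  rw [lt_def, lt_def]
  split_ifs with h1 h2
  · obtain ⟨k, rfl⟩ : ∃ k, l = i + 1 + k := ⟨l - i - 1, by omega⟩
    have : u + x * 8 ^ (i + 1 + k) = u + 8 ^ i * (8 * (x * 8 ^ k)) := by ring
    rw [this, Nat.add_mul_div_left _ _ (by positivity), Nat.add_mul_mod_self_left]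
  · subst h2
    have : u + x * 8 ^ i = u + 8 ^ i * x := by ring
    rw [this, Nat.add_mul_div_left _ _ (by positivity), Nat.div_eq_of_lt hu]
    omega
  · have : u + x * 8 ^ l < 8 ^ i := by
      have h3 : 8 ^ (l + 1) ≤ 8 ^ i := Nat.pow_le_pow_right (by norm_num) (by omega)
      have h4 : u + x * 8 ^ l < 8 ^ (l + 1) := by
        rw [pow_succ]
        have : x * 8 ^ l ≤ 7 * 8 ^ l := Nat.mul_le_mul_right _ (by omega)
        omega
      omega
    rw [Nat.div_eq_of_lt this]

theorem lt_of_small {u l i : ℕ} (hu : u < 8 ^ l) (hi : l ≤ i) : lt u i = 0 := by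
  have := lt_add (x := 0) (i := i) hu (by norm_num)
  simp only [zero_mul, add_zero] at this
  rw [this]
  split_ifs <;> omega

theorem add_small {u l x : ℕ} (hu : u < 8 ^ l) (hx : x < 8) : u + x * 8 ^ l < 8 ^ (l + 1) := by
  rw [pow_succ]
  have : x * 8 ^ l ≤ 7 * 8 ^ l := Nat.mul_le_mul_right _ (by omega)
  omega

theorem lt_div (u k i : ℕ) : lt (u / 8 ^ k) i = lt u (i + k) := by
  rw [lt_def, lt_def, Nat.div_div_eq_div_mul, ← pow_add, add_comm k i]

theorem lt_mod {u k i : ℕ} (hi : i < k) : lt (u % 8 ^ k) i = lt u i := by
  rw [lt_def, lt_def]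
  obtain ⟨j, rfl⟩ : ∃ j, k = i + 1 + j := ⟨k - i - 1, by omega⟩
  have h1 : u = u % 8 ^ (i + 1 + j) + 8 ^ i * (8 * (8 ^ j * (u / 8 ^ (i + 1 + j)))) := by
    have h2 := (Nat.div_add_mod u (8 ^ (i + 1 + j))).symm
    have h3 : 8 ^ (i + 1 + j) * (u / 8 ^ (i + 1 + j)) =
      8 ^ i * (8 * (8 ^ j * (u / 8 ^ (i + 1 + j)))) := by
      rw [pow_add, pow_add]; ring
    omega
  conv_rhs => rw [h1]
  rw [Nat.add_mul_div_left _ _ (by positivity), Nat.add_mul_mod_self_left]

theorem lt_mul {u k i : ℕ} : lt (u * 8 ^ k) i = if i < k then 0 else lt u (i - k) := by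
  rw [lt_def]
  split_ifs with h
  · obtain ⟨j, rfl⟩ : ∃ j, k = i + 1 + j := ⟨k - i - 1, by omega⟩
    have : u * 8 ^ (i + 1 + j) = 8 ^ i * (8 * (u * 8 ^ j)) := by ring
    rw [this, Nat.mul_div_cancel_left _ (by positivity), Nat.mul_mod_right]
  · obtain ⟨j, rfl⟩ : ∃ j, i = k + j := ⟨i - k, by omega⟩
    have e : k + j - k = j := by omega
    rw [e, lt_def, pow_add, ← Nat.div_div_eq_div_mul, Nat.mul_div_cancel _ (by positivity)]

theorem lt_sum {a b l i : ℕ} (ha : a < 8 ^ l) :
    lt (a + b * 8 ^ l) i = if i < l then lt a i else lt b (i - l) := by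
  split_ifs with h
  · rw [lt_def, lt_def]
    obtain ⟨k, rfl⟩ : ∃ k, l = i + 1 + k := ⟨l - i - 1, by omega⟩
    have : a + b * 8 ^ (i + 1 + k) = a + 8 ^ i * (8 * (b * 8 ^ k)) := by ring
    rw [this, Nat.add_mul_div_left _ _ (by positivity), Nat.add_mul_mod_self_left]
  · obtain ⟨j, rfl⟩ : ∃ j, i = l + j := ⟨i - l, by omega⟩
    have e : l + j - l = j := by omega
    rw [e, lt_def, lt_def, pow_add, ← Nat.div_div_eq_div_mul]
    have : a + b * 8 ^ l = a + 8 ^ l * b := by ring
    rw [this, Nat.add_mul_div_left _ _ (by positivity), Nat.div_eq_of_lt ha, Nat.zero_add]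

theorem lt_rot {u l k i : ℕ} (hu : u < 8 ^ l) (hk : k ≤ l) (hi : i < l) :
    lt (rotW u l k) i = lt u ((i + k) % l) := by
  have e : rotW u l k = u / 8 ^ k + (u % 8 ^ k) * 8 ^ (l - k) := rfl
  have h1 : u / 8 ^ k < 8 ^ (l - k) := by
    rw [Nat.div_lt_iff_lt_mul (by positivity), ← pow_add]
    rwa [show l - k + k = l by omega]
  rw [e, lt_sum h1]
  split_ifs with h
  · rw [lt_div, Nat.mod_eq_of_lt (by omega)]
  · rw [lt_mod (by omega)]
    have h2 : (i + k) % l = i + k - l := by
      rw [Nat.mod_eq_sub_mod (by omega), Nat.mod_eq_of_lt (by omega)]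
    rw [h2]
    congr 1
    omega

/-! ### masks -/

theorem testBit_iff {Q x : ℕ} : (Q / 2 ^ x) % 2 = 1 ↔ Q.testBit x = true := by
  rw [Nat.testBit_eq_decide_div_mod_eq]
  simp

theorem testBit_lor_pow {r a x : ℕ} :
    (Nat.lor r (Nat.pow 2 a)).testBit x = true ↔ (r.testBit x = true ∨ a = x) := by
  have : Nat.lor r (Nat.pow 2 a) = r ||| 2 ^ a := rfl
  rw [this, Nat.testBit_or, Nat.testBit_two_pow]
  simp

theorem occ1_spec {u l x : ℕ} : (occ1 u l).testBit x = true ↔ ∃ i < l, lt u i = x := by
  induction l with
  | zero => simp [occ1]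
  | succ l ih =>
    have : occ1 u (l + 1) = Nat.lor (occ1 u l) (Nat.pow 2 (lt u l)) := rfl
    rw [this, testBit_lor_pow, ih]
    constructor
    · rintro (⟨i, hi, h⟩ | h)
      · exact ⟨i, by omega, h⟩
      · exact ⟨l, by omega, h⟩
    · rintro ⟨i, hi, h⟩
      rcases Nat.lt_or_ge i l with h1 | h1
      · exact Or.inl ⟨i, h1, h⟩
      · right; rwa [show i = l by omega] at h

theorem occ2_spec {u l x : ℕ} : (occ2 u l).testBit x = true ↔
    ∃ i < l, ∃ j < i, lt u i = x ∧ lt u j = x := by
  induction l with
  | zero => simp [occ2]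
  | succ l ih =>
    have : occ2 u (l + 1) = occ2 u l ||| (occ1 u l &&& 2 ^ (lt u l)) := rfl
    rw [this, Nat.testBit_or, Nat.testBit_and, Nat.testBit_two_pow]
    simp only [Bool.or_eq_true, Bool.and_eq_true, decide_eq_true_eq, ih, occ1_spec]
    constructor
    · rintro (⟨i, hi, j, hj, h1, h2⟩ | ⟨⟨j, hj, h1⟩, h2⟩)
      · exact ⟨i, by omega, j, hj, h1, h2⟩
      · exact ⟨l, by omega, j, hj, h2, h1⟩
    · rintro ⟨i, hi, j, hj, h1, h2⟩
      rcases Nat.lt_or_ge i l with h3 | h3
      · exact Or.inl ⟨i, h3, j, hj, h1, h2⟩
      · obtain rfl : i = l := by omega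
        exact Or.inr ⟨⟨j, hj, h2⟩, h1⟩

theorem lastM_spec {u l k x : ℕ} (h : (lastM u l k).testBit x = true) :
    ∃ j < k, lt u (l - (j + 1)) = x := by
  induction k with
  | zero => simp [lastM] at h
  | succ k ih =>
    have e : lastM u l (k + 1) = Nat.lor (lastM u l k) (Nat.pow 2 (lt u (l - (k + 1)))) := rfl
    rw [e, testBit_lor_pow] at h
    rcases h with h | h
    · obtain ⟨j, hj, h1⟩ := ih h
      exact ⟨j, by omega, h1⟩
    · exact ⟨k, by omega, h⟩

/-! ### violations, counting -/

theorem viol_spec {u l d : ℕ} (h : viol u l d = true) :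
    ∃ i < l, ∃ e < d - 1, lt u i = lt u ((i + (e + 1)) % l) := by
  have hE : ∀ (i n : ℕ), (Nat.rec (motive := fun _ => Bool) false (fun e r => br (Nat.beq (lt u i)
      (lt u (Nat.mod (Nat.add i (Nat.succ e)) l))) true r) n = true) →
      ∃ e < n, lt u i = lt u ((i + (e + 1)) % l) := by
    intro i n
    induction n with
    | zero => intro h; exact absurd h (by show ¬ (false = true); simp)
    | succ n ih =>
      intro h
      have h1 : br (Nat.beq (lt u i) (lt u ((i + (n + 1)) % l))) true (Nat.rec (motive := fun _ => Bool) false (fun e r => br (Nat.beq (lt u i)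
        (lt u (Nat.mod (Nat.add i (Nat.succ e)) l))) true r) n) = true := h
      rw [br_true] at h1
      rcases h1 with ⟨h1, _⟩ | ⟨_, h1⟩
      · rw [beq_t] at h1
        exact ⟨n, by omega, h1⟩
      · obtain ⟨e, he, h2⟩ := ih h1
        exact ⟨e, by omega, h2⟩
  have hV : ∀ (n : ℕ), (Nat.rec (motive := fun _ => Bool) false (fun i r => br (violE u l i d) true r) n = true) →
      ∃ i < n, violE u l i d = true := by
    intro n
    induction n with
    | zero => intro h; exact absurd h (by show ¬ (false = true); simp)
    | succ n ih =>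
      intro h
      have h1 : br (violE u l n d) true (Nat.rec (motive := fun _ => Bool) false (fun i r => br (violE u l i d) true r) n) = true := h
      rw [br_true] at h1
      rcases h1 with ⟨h1, _⟩ | ⟨_, h1⟩
      · exact ⟨n, by omega, h1⟩
      · obtain ⟨e, he, h2⟩ := ih h1
        exact ⟨e, by omega, h2⟩
  obtain ⟨i, hi, h1⟩ := hV l h
  obtain ⟨e, he, h2⟩ := hE i (d - 1) h1
  exact ⟨i, hi, e, he, h2⟩

theorem cntL_spec (u l x : ℕ) : cntL u l x = ((range l).filter fun i => lt u i = x).card := by
  induction l with
  | zero => simp [cntL]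
  | succ l ih =>
    have e : cntL u (l + 1) x = brN (Nat.beq (lt u l) x) (Nat.succ (cntL u l x)) (cntL u l x) := rfl
    rw [e, brN_eq, ih, range_add_one, filter_insert]
    by_cases h : lt u l = x
    · rw [if_pos (beq_t.2 h), if_pos h, card_insert_of_notMem (by simp)]
    · rw [if_neg (by rw [beq_t]; exact h), if_neg h]

theorem num3_spec (u l : ℕ) : ∀ c, num3 u l c < 100 →
    (∀ x < c, cntL u l x = 2 ∨ cntL u l x = 3) ∧
    num3 u l c = ((range c).filter fun x => cntL u l x = 3).card := by
  intro c
  induction c with
  | zero => intro _; simp [num3]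
  | succ c ih =>
    intro h
    have e : num3 u l (c + 1) = brN (Nat.beq (cntL u l c) 2) (num3 u l c)
      (brN (Nat.beq (cntL u l c) 3) (Nat.succ (num3 u l c)) 100) := rfl
    rw [e] at h ⊢
    rw [brN_eq, brN_eq] at h ⊢
    rw [range_add_one, filter_insert]
    by_cases h2 : cntL u l c = 2
    · rw [if_pos (beq_t.2 h2)] at h ⊢
      obtain ⟨i1, i2⟩ := ih h
      refine ⟨?_, ?_⟩
      · intro x hx
        rcases Nat.lt_or_ge x c with h3 | h3
        · exact i1 x h3
        · left; rwa [show x = c by omega]
      · rw [if_neg (by omega)]; exact i2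
    · rw [if_neg (by rw [beq_t]; exact h2)] at h ⊢
      by_cases h3 : cntL u l c = 3
      · rw [if_pos (beq_t.2 h3)] at h ⊢
        obtain ⟨i1, i2⟩ := ih (by omega)
        refine ⟨?_, ?_⟩
        · intro x hx
          rcases Nat.lt_or_ge x c with h4 | h4
          · exact i1 x h4
          · right; rwa [show x = c by omega]
        · rw [if_pos h3, card_insert_of_notMem (by simp), ← i2]
      · rw [if_neg (by rw [beq_t]; exact h3)] at h
        omega

/-! ### the complete word -/

section

variable {L : Type} [DecidableEq L] {w : ℕ → L} {n u l c m d : ℕ} {φ : ℕ → L}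

theorem per_mod (hw : ∀ i, w (i + n) = w i) (i : ℕ) : w (i % n) = w i := by
  have h : ∀ k j, w (j + n * k) = w j := by
    intro k
    induction k with
    | zero => intro j; simp
    | succ k ih =>
      intro j
      have : j + n * (k + 1) = (j + n * k) + n := by ring
      rw [this, hw, ih]
  conv_rhs => rw [← Nat.mod_add_div i n]
  exact (h _ _).symm

theorem Lts_full (hF : Far m d w l) (hP : Pre w l u l c φ) :
    Lts w l = (range c).image φ := by
  ext z
  simp only [Lts, mem_image, mem_range]
  constructor
  · rintro ⟨i, hi, rfl⟩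
    exact ⟨lt u i, (hP.let' i hi).1, (hP.let' i hi).2.symm⟩
  · rintro ⟨x, hx, rfl⟩
    obtain ⟨i, hi, h⟩ := hP.occ x hx
    exact ⟨i, hi, by rw [(hP.let' i hi).2, h]⟩

theorem cnt_full (hP : Pre w l u l c φ) {x : ℕ} (hx : x < c) :
    cnt w l (φ x) = cntL u l x := by
  rw [cntL_spec, cnt]
  congr 1
  apply filter_congr
  intro i hi
  rw [mem_range] at hi
  rw [(hP.let' i hi).2]
  constructor
  · intro h; exact hP.inj _ (hP.let' i hi).1 _ hx h
  · intro h; rw [h]

theorem comp_sound {S S' : ℕ} (hl : 1 ≤ l) (hF : Far m d w l) (hP : Pre w l u l c φ)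
    (h : comp d u l c (occ1 u l) (occ2 u l) S = S' + 1) : Concl w l := by
  unfold comp at h
  rw [brN_eq] at h
  by_cases h1 : occ1 u l = occ2 u l
  · rw [if_pos (beq_t.2 h1), brN_eq] at h
    by_cases h2 : viol u l d = true
    · exfalso
      obtain ⟨i, hi, e, he, h3⟩ := viol_spec h2
      have h4 : w i = w (i + (e + 1)) := by
        rw [← per_mod hF.cyc.per (i + (e + 1)), (hP.let' i hi).2,
          (hP.let' _ (Nat.mod_lt _ (by omega))).2, h3]
      exact hF.far i (i + (e + 1)) (by omega) (by omega) h4
    · rw [if_neg h2, brN_eq] at h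
      by_cases h3 : exc u l c = true
      · right
        unfold exc at h3
        rw [br_true] at h3
        rcases h3 with ⟨h3, h4⟩ | ⟨_, h4⟩
        · rw [ble_t] at h3
          rw [beq_t] at h4
          obtain ⟨h5, h6⟩ := num3_spec u l c (by omega)
          have hcard : (Lts w l).card = c := by
            rw [Lts_full hF hP, card_image_of_injOn, card_range]
            intro x hx y hy hxy
            simp only [coe_range, Set.mem_Iio] at hx hy
            exact hP.inj x hx y hy hxy
          refine ⟨by omega, ?_, ?_⟩
          · intro z hz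
            rw [Lts_full hF hP, mem_image] at hz
            obtain ⟨x, hx, rfl⟩ := hz
            rw [mem_range] at hx
            rw [cnt_full hP hx]
            exact h5 x hx
          · rw [← h4, h6, Lts_full hF hP, filter_image, card_image_of_injOn]
            · congr 1
              apply filter_congr
              intro x hx
              rw [mem_range] at hx
              rw [cnt_full hP hx]
            · intro x hx y hy hxy
              simp only [coe_filter, mem_range, Set.mem_setOf_eq] at hx hy
              exact hP.inj x hx.1 y hy.1 hxy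
        · simp at h4
      · rw [if_neg h3, brN_eq] at h
        by_cases h4 : br (Nat.ble (Nat.mod S 32) l)
            (pat (rotW u l (Nat.mod S 32)) (Nat.sub l 1) (Nat.mod (Nat.div S 32) 32)
              (Nat.mod (Nat.div S 1024) (Nat.pow 1024 (Nat.mod (Nat.div S 32) 32)))) false = true
        · obtain ⟨h4, h5⟩ := br_false h4
          left
          rw [ble_t] at h4
          generalize Nat.mod S 32 = k at h4 h5
          have h10 := Walk_pf (fun i => w (i + k)) l (rotW u l k) (l - 1) _ _ (by omega) (by
            intro i hi j hj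
            rw [lt_rot hP.small h4 (by omega), lt_rot hP.small h4 (by omega)]
            show w (i + k) = w (j + k) ↔ _
            rw [← per_mod hF.cyc.per (i + k), ← per_mod hF.cyc.per (j + k),
              (hP.let' _ (Nat.mod_lt (i + k) (by omega))).2,
              (hP.let' _ (Nat.mod_lt (j + k) (by omega))).2]
            constructor
            · intro h
              exact hP.inj _ (hP.let' _ (Nat.mod_lt _ (by omega))).1 _
                (hP.let' _ (Nat.mod_lt _ (by omega))).1 h
            · intro h; rw [h]) h5
          obtain ⟨F', hF'⟩ := h10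
          exact ⟨k, F', hF'⟩
        · rw [if_neg h4] at h
          omega
  · exfalso
    have h2 : ∃ x, (occ1 u l).testBit x ≠ (occ2 u l).testBit x := by
      by_contra h3
      push Not at h3
      exact h1 (Nat.eq_of_testBit_eq h3)
    obtain ⟨x, hx⟩ := h2
    have h3 : (occ1 u l).testBit x = true := by
      by_contra h4
      have h5 : (occ2 u l).testBit x = true := by
        by_contra h6
        rw [Bool.not_eq_true] at h4 h6
        exact hx (by rw [h4, h6])
      obtain ⟨i, hi, j, hj, h6, h7⟩ := occ2_spec.1 h5
      exact h4 (occ1_spec.2 ⟨i, hi, h6⟩)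
    have h4 : ¬ (occ2 u l).testBit x = true := by
      intro h5; exact hx (by rw [h3, h5])
    obtain ⟨i, hi, h5⟩ := occ1_spec.1 h3
    have h6 : x < c := by rw [← h5]; exact (hP.let' i hi).1
    have h7 : φ x ∈ Lts w l := by
      rw [Lts_full hF hP]
      exact mem_image_of_mem _ (mem_range.2 h6)
    have h8 := hF.cyc.mult _ h7
    rw [cnt_full hP h6, cntL_spec] at h8
    obtain ⟨a, ha, b, hb, hab⟩ := one_lt_card.1 h8
    simp only [mem_filter, mem_range] at ha hb
    apply h4
    rw [occ2_spec]
    rcases Nat.lt_or_gt_of_ne hab with h9 | h9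
    · exact ⟨b, hb.1, a, h9, hb.2, ha.2⟩
    · exact ⟨a, ha.1, b, h9, ha.2, hb.2⟩

end

/-! ### the children -/

theorem kids_spec {R : List ℕ} {u l c S1 S2 Q : ℕ} {ih : ℕ → ℕ → ℕ → ℕ → ℕ → ℕ → ℕ} :
    ∀ (k x S r : ℕ), kids R u l c S1 S2 Q ih k x S = r + 1 → ∀ x0, x ≤ x0 → x0 < x + k →
      Q.testBit x0 = true ∨
      (∃ S' r', ih (u + x0 * 8 ^ l) (l + 1) (brN (Nat.beq x0 c) (Nat.succ c) c) (S1 ||| 2 ^ x0)
        (brN (Nat.beq x0 c) S2 (S2 ||| 2 ^ x0)) S' = r' + 1) ∨
      mem (u + x0 * 8 ^ l + 8 ^ (l + 1)) R = true ∨ ∃ g P, pat (u + x0 * 8 ^ l) l g P = true := by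
  intro k
  induction k with
  | zero => intro x S r _ x0 h1 h2; omega
  | succ k ihk =>
    intro x S r h x0 h1 h2
    have e : kids R u l c S1 S2 Q ih (k + 1) x S =
      brN (Nat.beq (Nat.mod (Nat.div Q (Nat.pow 2 x)) 2) 1) (kids R u l c S1 S2 Q ih k (Nat.succ x) S)
        (kid R (Nat.add u (Nat.mul x (Nat.pow 8 l))) l c S1 S2 x (Nat.mod S 32) (Nat.div S 32) ih
          (kids R u l c S1 S2 Q ih k)) := rfl
    rw [e, brN_eq] at h
    by_cases h3 : Nat.beq (Nat.mod (Nat.div Q (Nat.pow 2 x)) 2) 1 = true
    · rw [if_pos h3] at h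
      rcases Nat.eq_or_lt_of_le h1 with h4 | h4
      · left
        rw [beq_t] at h3
        rw [← h4]
        exact testBit_iff.1 h3
      · exact ihk _ _ _ h x0 h4 (by omega)
    · rw [if_neg h3] at h
      unfold kid at h
      rw [brN_eq] at h
      by_cases h5 : Nat.beq (Nat.mod S 32) 0 = true
      · rw [if_pos h5] at h
        rcases hi : ih (Nat.add u (Nat.mul x (Nat.pow 8 l))) (Nat.succ l)
              (brN (Nat.beq x c) (Nat.succ c) c) (Nat.lor S1 (Nat.pow 2 x))
              (brN (Nat.beq x c) S2 (Nat.lor S2 (Nat.pow 2 x))) (Nat.div S 32) with _ | r'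
        · rw [hi] at h
          exact absurd h (by show ¬ (0 = r + 1); omega)
        · rw [hi] at h
          have h6 : kids R u l c S1 S2 Q ih k (Nat.succ x) r' = r + 1 := h
          rcases Nat.eq_or_lt_of_le h1 with h4 | h4
          · right; left
            rw [← h4]
            exact ⟨_, r', hi⟩
          · exact ihk _ _ _ h6 x0 h4 (by omega)
      · rw [if_neg h5, brN_eq] at h
        by_cases h6 : Nat.beq (Nat.mod S 32) 1 = true
        · rw [if_pos h6, brN_eq] at h
          by_cases h7 : mem (Nat.add (Nat.add u (Nat.mul x (Nat.pow 8 l))) (Nat.pow 8 (Nat.succ l)))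
              R = true
          · rw [if_pos h7] at h
            rcases Nat.eq_or_lt_of_le h1 with h4 | h4
            · right; right; left
              rw [← h4]
              exact h7
            · exact ihk _ _ _ h x0 h4 (by omega)
          · rw [if_neg h7] at h
            omega
        · rw [if_neg h6, brN_eq] at h
          by_cases h7 : pat (Nat.add u (Nat.mul x (Nat.pow 8 l))) l (Nat.mod S 32)
              (Nat.mod (Nat.div S 32) (Nat.pow 1024 (Nat.mod S 32))) = true
          · rw [if_pos h7] at h
            rcases Nat.eq_or_lt_of_le h1 with h4 | h4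
            · right; right; right
              rw [← h4]
              exact ⟨_, _, h7⟩
            · exact ihk _ _ _ h x0 h4 (by omega)
          · rw [if_neg h7] at h
            omega

theorem node_sound {m d l0 : ℕ} {R : List ℕ} (hm : m ≤ 8)
    (H : ∀ u' l' c', l0 < l' → u' + 8 ^ l' ∈ R → u' < 8 ^ l' → GoodW m d u' l' c') :
    ∀ (fuel u l c S r : ℕ), l0 ≤ l → 1 ≤ l →
      node m d R fuel u l c (occ1 u l) (occ2 u l) S = r + 1 → GoodW m d u l c := by
  intro fuel
  induction fuel with
  | zero => intro u l c S r _ _ h; exact absurd h (by show ¬ (0 = r + 1); omega)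
  | succ fuel ih =>
    intro u l c S r hl0 hl h L _ w n φ hF hP
    have e : node m d R (fuel + 1) u l c (occ1 u l) (occ2 u l) S =
      Nat.rec (motive := fun _ => ℕ) 0 (fun S' _ => kids R u l c (occ1 u l) (occ2 u l)
        (lastM u l (d - 1)) (node m d R fuel)
        (brN (Nat.beq c m) m (Nat.succ c)) 0 S') (comp d u l c (occ1 u l) (occ2 u l) S) := rfl
    rw [e] at h
    rcases hc : comp d u l c (occ1 u l) (occ2 u l) S with _ | S'
    · rw [hc] at h
      exact absurd h (by show ¬ (0 = r + 1); omega)
    · rw [hc] at h
      have hk : kids R u l c (occ1 u l) (occ2 u l) (lastM u l (d - 1)) (node m d R fuel)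
        (brN (Nat.beq c m) m (Nat.succ c)) 0 S' = r + 1 := h
      rcases Nat.eq_or_lt_of_le hP.le with hln | hln
      · subst hln
        exact comp_sound hl hF hP hc
      · -- the letter of the next position
        have hcL : (range c).image φ ⊆ Lts w n := by
          intro z hz
          rw [mem_image] at hz
          obtain ⟨x, hx, rfl⟩ := hz
          rw [mem_range] at hx
          obtain ⟨i, hi, h⟩ := hP.occ x hx
          simp only [Lts, mem_image, mem_range]
          exact ⟨i, by omega, by rw [(hP.let' i hi).2, h]⟩
        have hinj : ((range c).image φ).card = c := by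
          rw [card_image_of_injOn, card_range]
          intro x hx y hy hxy
          simp only [coe_range, Set.mem_Iio] at hx hy
          exact hP.inj x hx y hy hxy
        have hcm : c ≤ m := by
          have := card_le_card hcL
          rw [hinj] at this
          exact this.trans hF.card
        -- the code of the letter `w l`
        obtain ⟨x0, φ', hx0c, hx0m, hφ', hφ0, hinj'⟩ : ∃ (x0 : ℕ) (φ' : ℕ → L), x0 ≤ c ∧ x0 < m ∧
            (∀ x < c, φ' x = φ x) ∧ φ' x0 = w l ∧
            (x0 = c → ∀ x < c, φ x ≠ w l) := by
          by_cases hex : ∃ x < c, φ x = w l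
          · obtain ⟨x, hx, h1⟩ := hex
            exact ⟨x, φ, by omega, by omega, fun _ _ => rfl, h1, fun h => by omega⟩
          · push Not at hex
            refine ⟨c, fun x => if x = c then w l else φ x, le_rfl, ?_, ?_, by simp,
              fun _ => hex⟩
            · have h1 : w l ∉ (range c).image φ := by
                intro h2
                rw [mem_image] at h2
                obtain ⟨x, hx, h3⟩ := h2
                exact hex x (mem_range.1 hx) h3
              have h2 : insert (w l) ((range c).image φ) ⊆ Lts w n := by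
                apply insert_subset _ hcL
                simp only [Lts, mem_image, mem_range]
                exact ⟨l, hln, rfl⟩
              have h3 := card_le_card h2
              rw [card_insert_of_notMem h1, hinj] at h3
              have h4 := hF.card
              omega
            · intro x hx
              simp only [show x ≠ c by omega, if_false]
        have hx8 : x0 < 8 := by omega
        have hcnt : x0 < 0 + brN (Nat.beq c m) m (Nat.succ c) := by
          rw [brN_eq]
          split_ifs with h1
          · omega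
          · show x0 < 0 + (c + 1); omega
        -- digits of the new word
        have hdig : ∀ i, lt (u + x0 * 8 ^ l) i = if i < l then lt u i else if i = l then x0 else 0 :=
          fun i => lt_add hP.small hx8
        have hdl : ∀ i < l, lt (u + x0 * 8 ^ l) i = lt u i := by
          intro i hi; rw [hdig, if_pos hi]
        have hd0 : lt (u + x0 * 8 ^ l) l = x0 := by
          rw [hdig, if_neg (by omega), if_pos rfl]
        set c' := brN (Nat.beq x0 c) (Nat.succ c) c with hc'
        have hc'1 : c' = if x0 = c then c + 1 else c := by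
          rw [hc', brN_eq]
          by_cases h1 : x0 = c
          · rw [if_pos (beq_t.2 h1), if_pos h1]
          · rw [if_neg (by rw [beq_t]; exact h1), if_neg h1]
        have hcc' : c ≤ c' ∧ x0 < c' ∧ (x0 ≠ c → c' = c) ∧ c' ≤ c + 1 := by
          rw [hc'1]; split_ifs <;> omega
        have hP' : Pre w n (u + x0 * 8 ^ l) (l + 1) c' φ' := by
          refine ⟨by omega, add_small hP.small hx8, ?_, ?_, ?_⟩
          · intro i hi
            rcases Nat.lt_or_ge i l with h1 | h1
            · rw [hdl i h1]
              have h2 := hP.let' i h1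
              exact ⟨by omega, by rw [hφ' _ h2.1]; exact h2.2⟩
            · obtain rfl : i = l := by omega
              rw [hd0]
              exact ⟨hcc'.2.1, hφ0.symm⟩
          · intro x hx y hy hxy
            by_cases hx0 : x0 = c
            · have h3 := hinj' hx0
              rcases Nat.lt_or_ge x c with h4 | h4 <;> rcases Nat.lt_or_ge y c with h5 | h5
              · rw [hφ' x h4, hφ' y h5] at hxy
                exact hP.inj x h4 y h5 hxy
              · have h6 : y = x0 := by omega
                rw [h6, hφ0, hφ' x h4] at hxy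
                exact absurd hxy (h3 x h4)
              · have h6 : x = x0 := by omega
                rw [h6, hφ0, hφ' y h5] at hxy
                exact absurd hxy.symm (h3 y h5)
              · omega
            · have h4 := hcc'.2.2.1 hx0
              rw [hφ' x (by omega), hφ' y (by omega)] at hxy
              exact hP.inj x (by omega) y (by omega) hxy
          · intro x hx
            rcases Nat.lt_or_ge x c with h4 | h4
            · obtain ⟨i, hi, h5⟩ := hP.occ x h4
              exact ⟨i, by omega, by rw [hdl i hi]; exact h5⟩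
            · have h6 : x = x0 := by
                by_contra h7
                have := hcc'.2.2.1
                omega
              exact ⟨l, by omega, by rw [hd0, h6]⟩
        rcases kids_spec _ _ _ _ hk x0 (Nat.zero_le _) hcnt with h1 | ⟨S'', r', h1⟩ | h1 | ⟨F, h1⟩
        · exfalso
          obtain ⟨j, hj, h2⟩ := lastM_spec h1
          have h3 : l - (j + 1) < l := by omega
          have h4 := hP.let' _ h3
          rw [h2] at h4
          have h5 : w (l - (j + 1)) = w l := by
            rw [h4.2, ← hφ' x0 h4.1, hφ0]
          exact hF.far (l - (j + 1)) l h3 (by omega) h5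
        · refine ih (u + x0 * 8 ^ l) (l + 1) c' S'' r' (by omega) (by omega) ?_ w n φ' hF hP'
          have e1 : occ1 (u + x0 * 8 ^ l) (l + 1) = occ1 u l ||| 2 ^ x0 := by
            apply Nat.eq_of_testBit_eq
            intro x
            rw [Bool.eq_iff_iff, occ1_spec, Nat.testBit_or, Nat.testBit_two_pow]
            simp only [Bool.or_eq_true, decide_eq_true_eq, occ1_spec]
            constructor
            · rintro ⟨i, hi, h⟩
              rcases Nat.lt_or_ge i l with h4 | h4
              · left; exact ⟨i, h4, by rw [← hdl i h4]; exact h⟩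
              · right; obtain rfl : i = l := by omega
                rw [← hd0]; exact h
            · rintro (⟨i, hi, h⟩ | h)
              · exact ⟨i, by omega, by rw [hdl i hi]; exact h⟩
              · exact ⟨l, by omega, by rw [hd0]; exact h⟩
          have e2 : occ2 (u + x0 * 8 ^ l) (l + 1) =
              brN (Nat.beq x0 c) (occ2 u l) (occ2 u l ||| 2 ^ x0) := by
            have e3 : ∀ x, (occ2 (u + x0 * 8 ^ l) (l + 1)).testBit x = true ↔
                (occ2 u l).testBit x = true ∨ (x = x0 ∧ x0 < c) := by
              intro x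
              rw [occ2_spec, occ2_spec]
              constructor
              · rintro ⟨i, hi, j, hj, h4, h5⟩
                rcases Nat.lt_or_ge i l with h6 | h6
                · left
                  exact ⟨i, h6, j, hj, by rw [← hdl i h6]; exact h4,
                    by rw [← hdl j (by omega)]; exact h5⟩
                · right
                  obtain rfl : i = l := by omega
                  rw [hd0] at h4
                  rw [hdl j hj] at h5
                  have := (hP.let' j hj).1
                  exact ⟨h4.symm, by omega⟩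
              · rintro (⟨i, hi, j, hj, h4, h5⟩ | ⟨h4, h5⟩)
                · exact ⟨i, by omega, j, hj, by rw [hdl i hi]; exact h4,
                    by rw [hdl j (by omega)]; exact h5⟩
                · obtain ⟨j, hj, h6⟩ := hP.occ x0 h5
                  exact ⟨l, by omega, j, hj, by rw [hd0, h4], by rw [hdl j hj, h6, h4]⟩
            apply Nat.eq_of_testBit_eq
            intro x
            rw [Bool.eq_iff_iff, e3, brN_eq]
            by_cases h4 : x0 = c
            · rw [if_pos (beq_t.2 h4)]
              constructor
              · rintro (h | h)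
                · exact h
                · omega
              · intro h; exact Or.inl h
            · rw [if_neg (by rw [beq_t]; exact h4), Nat.testBit_or, Nat.testBit_two_pow]
              simp only [Bool.or_eq_true, decide_eq_true_eq]
              constructor
              · rintro (h | h)
                · exact Or.inl h
                · exact Or.inr h.1.symm
              · rintro (h | h)
                · exact Or.inl h
                · exact Or.inr ⟨h.symm, by omega⟩
          rw [e1, e2]
          exact h1
        · exact H _ _ _ (by omega) (mem_true h1) (add_small hP.small hx8) w n φ' hF hP'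
        · left
          obtain ⟨P, h1⟩ := h1
          obtain ⟨F', hF'⟩ := Walk_pf w n (u + x0 * 8 ^ l) l F P (by omega) (by
            intro i hi j hj
            have h10 := hP'.let' i (by omega)
            have h11 := hP'.let' j (by omega)
            rw [h10.2, h11.2]
            constructor
            · intro h
              exact hP'.inj _ h10.1 _ h11.1 h
            · intro h; rw [h]) h1
          exact ⟨0, F', hF'⟩

end I_Node

open I_Node in
/-- Soundness of `node`. -/
theorem Node_pf (m d : ℕ) (R : List ℕ) (fuel u l c S r : ℕ) (hl : 1 ≤ l) (hm : m ≤ 8)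
    (h : node m d R fuel u l c (occ1 u l) (occ2 u l) S = r + 1)
    (H : ∀ u' l' c', l < l' → u' + 8 ^ l' ∈ R → u' < 8 ^ l' → GoodW m d u' l' c') :
    GoodW m d u l c :=
  node_sound hm H fuel u l c S r le_rfl hl h

end Pool.Agent.Work.MP_7794fd_co.X
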