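import Pool.Agent.Work.MP_7794fd_co.X.T8.All

/-! Block X, item Trees: the finite computation. -/

set_option autoImplicit false

namespace Pool.Agent.Work.MP_7794fd_co.X

open Finset

theorem Trees_pf : S_Trees := by
  intro d h3 h8
  have hd : d = 3 ∨ d = 4 ∨ d = 5 ∨ d = 6 ∨ d = 7 ∨ d = 8 := by omega
  intro L _ w n φ hF hP
  rcases hd with rfl | rfl | rfl | rfl | rfl | rfl
  · exact T8.g3_971 (rootU 3) (3 + 1) 3 (by simp [rootU, sum_range_succ])
      (by simp [rootU, sum_range_succ]) w n φ hF hP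
  · exact T8.g4_72 (rootU 4) (4 + 1) 4 (by simp [rootU, sum_range_succ])
      (by simp [rootU, sum_range_succ]) w n φ hF hP
  · exact T8.g5_7 (rootU 5) (5 + 1) 5 (by simp [rootU, sum_range_succ])
      (by simp [rootU, sum_range_succ]) w n φ hF hP
  · exact T8.g6_0 (rootU 6) (6 + 1) 6 (by simp [rootU, sum_range_succ])
      (by simp [rootU, sum_range_succ]) w n φ hF hP
  · exact T8.g7_0 (rootU 7) (7 + 1) 7 (by simp [rootU, sum_range_succ])
      (by simp [rootU, sum_range_succ]) w n φ hF hP
  · exact T8.g8_0 (rootU 8) (8 + 1) 8 (by simp [rootU, sum_range_succ])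
      (by simp [rootU, sum_range_succ]) w n φ hF hP

end Pool.Agent.Work.MP_7794fd_co.X
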