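import Pool.Agent.Work.MP_7794fd_co.X.Stmts

/-! Block X, item Walk: soundness of the test of a pattern. -/

set_option autoImplicit false

namespace Pool.Agent.Work.MP_7794fd_co.X

open Finset Pool.Agent.Work.MP_7794fd_co.R Pool.Agent.Work.MP_7794fd_co.M

namespace I_Walk

theorem br_true {c x y : Bool} : br c x y = true ↔ (c = true ∧ x = true) ∨ (c = false ∧ y = true) := by
  cases c <;> simp [br]

theorem br_false {c x : Bool} (h : br c x false = true) : c = true ∧ x = true := by
  cases c <;> simp_all [br]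

theorem brN_eq (c : Bool) (x y : ℕ) : brN c x y = if c = true then x else y := by
  cases c <;> simp [brN]

theorem beq_t {a b : ℕ} : Nat.beq a b = true ↔ a = b := by rw [Nat.beq_eq]
theorem beq_f {a b : ℕ} : Nat.beq a b = false ↔ a ≠ b := by
  rw [← Bool.not_eq_true, Nat.beq_eq]
theorem ble_t {a b : ℕ} : Nat.ble a b = true ↔ a ≤ b := by rw [Nat.ble_eq]
theorem ble_f {a b : ℕ} : Nat.ble a b = false ↔ b < a := by
  rw [← Bool.not_eq_true, Nat.ble_eq]; omega

theorem lt_def (u i : ℕ) : lt u i = u / 8 ^ i % 8 := rfl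

theorem lt_lt (u i : ℕ) : lt u i < 8 := by rw [lt_def]; exact Nat.mod_lt _ (by norm_num)

theorem testBit_sub {s t : ℕ} (h : s ≤ t) (x : ℕ) :
    (2 ^ (t + 1) - 2 ^ s).testBit x = decide (s ≤ x ∧ x ≤ t) := by
  have e : 2 ^ (t + 1) - 2 ^ s = 2 ^ s * (2 ^ (t + 1 - s) - 1) := by
    rw [Nat.mul_sub, mul_one, ← pow_add]
    congr 2
    omega
  rw [e, mul_comm, Nat.testBit_mul_two_pow, Nat.testBit_two_pow_sub_one]
  by_cases h1 : s ≤ x
  · simp only [h1, true_and]
    by_cases h2 : x ≤ t
    · simp [h1, h2]; omega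
    · simp [h1, h2]; omega
  · simp [h1]

theorem ivl_spec (s t x : ℕ) :
    (ivl s t).testBit x = true ↔ (min s t ≤ x ∧ x ≤ max s t) := by
  unfold ivl
  rw [brN_eq]
  by_cases h : s ≤ t
  · rw [if_pos (ble_t.2 h)]
    show (2 ^ (t + 1) - 2 ^ s).testBit x = true ↔ _
    rw [testBit_sub h, decide_eq_true_eq, min_eq_left h, max_eq_right h]
  · rw [if_neg (by rw [ble_t]; exact h)]
    show (2 ^ (s + 1) - 2 ^ t).testBit x = true ↔ _
    rw [testBit_sub (by omega), decide_eq_true_eq, min_eq_right (by omega), max_eq_left (by omega)]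

theorem bit_lor_pow {r a x : ℕ} :
    (Nat.lor r (Nat.pow 2 a)).testBit x = true ↔ (r.testBit x = true ∨ a = x) := by
  have : Nat.lor r (Nat.pow 2 a) = r ||| 2 ^ a := rfl
  rw [this, Nat.testBit_or, Nat.testBit_two_pow]
  simp

theorem bit_lor {r a x : ℕ} :
    (Nat.lor r a).testBit x = true ↔ (r.testBit x = true ∨ a.testBit x = true) := by
  have : Nat.lor r a = r ||| a := rfl
  rw [this, Nat.testBit_or, Bool.or_eq_true]

theorem land_zero {a b : ℕ} (h : Nat.land a b = 0) (x : ℕ) (ha : a.testBit x = true) :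
    ¬ b.testBit x = true := by
  intro hb
  have h1 : (a &&& b).testBit x = true := by rw [Nat.testBit_and, ha, hb]; rfl
  have h2 : (a &&& b) = 0 := h
  rw [h2] at h1
  simp at h1

section

variable {L : Type} [DecidableEq L] (w : ℕ → L) (u : ℕ)

/-- number of the positions in `P` with the letter `z` -/
def nb (P : Finset ℕ) (z : ℕ) : ℕ := (P.filter fun p => lt u p = z).card

structure Inv (P Q : Finset ℕ) (s LM CM : ℕ) : Prop where
  z0 : 0 ∈ Q
  ne : P.Nonempty
  c1 : ∀ p ∈ P, CM.testBit p = true
  c2 : ∀ p ∈ Q, CM.testBit p = true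
  c3 : ∀ p, CM.testBit p = true → p ∉ P → CM.testBit (p + 1) = true ∧ p + 1 ∉ Q
  c4 : ∀ p ∈ P, CM.testBit (p + 1) = true → p + 1 ∈ Q
  c6 : ∀ p, CM.testBit (p + 1) = true → ¬ CM.testBit p = true → p + 1 ∈ Q
  deg : ∀ z, nb u P z + nb u (Q.erase 0) z + (if lt u s = z then 1 else 0) =
    if LM.testBit z = true then 2 else 0
  lab : ∀ (lam : ℕ → Bool) (mu : ℕ → Bool),
    (∀ p, CM.testBit p = true → p ∉ P → lam p = lam (p + 1)) →
    (∀ p ∈ P, lam p = mu (lt u p)) → (∀ p ∈ Q, p ≠ 0 → lam p = mu (lt u p)) →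
    lam s = mu (lt u s) → lam s = lam 0 ∧ ∀ p, CM.testBit p = true → lam p = lam 0

variable {w u}

theorem nb_insert {P : Finset ℕ} {a : ℕ} (h : a ∉ P) (z : ℕ) :
    nb u (insert a P) z = nb u P z + (if lt u a = z then 1 else 0) := by
  unfold nb
  rw [filter_insert]
  split_ifs with h1
  · rw [card_insert_of_notMem (by simp [h])]
  · rfl

theorem const_between {lam : ℕ → Bool} {lo hi : ℕ}
    (h : ∀ p, lo ≤ p → p < hi → lam p = lam (p + 1)) :
    ∀ p, lo ≤ p → p ≤ hi → lam p = lam lo := by
  intro p
  induction p with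
  | zero => intro h1 _; rw [show lo = 0 by omega]
  | succ p ih =>
    intro h1 h2
    rcases Nat.eq_or_lt_of_le h1 with h3 | h3
    · rw [h3]
    · rw [← h p (by omega) (by omega)]
      exact ih (by omega) (by omega)

theorem step_sound {A Q : Finset ℕ} {s LM CM t s' : ℕ} (I : Inv u A Q s LM CM)
    (hx : lt u s' = lt u t) (hLM : ¬ LM.testBit (lt u t) = true)
    (hCM : ∀ p, min s t ≤ p → p ≤ max s t → ¬ CM.testBit p = true) :
    Inv u (insert (max s t) A) (insert (min s t) Q) s' (Nat.lor LM (Nat.pow 2 (lt u t)))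
      (Nat.lor CM (ivl s t)) := by
  obtain ⟨z0, ne, c1, c2, c3, c4, c6, deg, lab⟩ := I
  set lo := min s t with hlo
  set hi := max s t with hhi
  have hle : lo ≤ hi := by omega
  have hbit : ∀ p, (Nat.lor CM (ivl s t)).testBit p = true ↔
      (CM.testBit p = true ∨ (lo ≤ p ∧ p ≤ hi)) := by
    intro p; rw [bit_lor, ivl_spec]
  have hlo0 : lo ≠ 0 := by
    intro h
    exact hCM 0 (by omega) (by omega) (c2 0 z0)
  have hhiA : hi ∉ A := fun h => hCM hi hle le_rfl (c1 hi h)
  have hloQ : lo ∉ Q := fun h => hCM lo le_rfl hle (c2 lo h)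
  refine ⟨mem_insert_of_mem z0, ⟨hi, mem_insert_self _ _⟩, ?_, ?_, ?_, ?_, ?_, ?_, ?_⟩
  · intro p hp
    rw [hbit]
    rcases mem_insert.1 hp with h | h
    · right; omega
    · left; exact c1 p h
  · intro p hp
    rw [hbit]
    rcases mem_insert.1 hp with h | h
    · right; omega
    · left; exact c2 p h
  · intro p hp hpA
    rw [mem_insert, not_or] at hpA
    rw [hbit] at hp
    rw [hbit, mem_insert, not_or]
    rcases hp with h | h
    · obtain ⟨h1, h2⟩ := c3 p h hpA.2
      refine ⟨Or.inl h1, ?_, h2⟩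
      intro h3
      exact hCM lo le_rfl hle (h3 ▸ h1)
    · refine ⟨Or.inr (by omega), by omega, ?_⟩
      intro h3
      exact hCM (p + 1) (by omega) (by omega) (c2 _ h3)
  · intro p hp h1
    rw [hbit] at h1
    rw [mem_insert]
    rcases mem_insert.1 hp with h | h
    · rcases h1 with h2 | h2
      · right
        exact c6 p h2 (hCM p (by omega) (by omega))
      · omega
    · rcases h1 with h2 | h2
      · right; exact c4 p h h2
      · left
        have h3 := c1 p h
        by_contra h4
        exact hCM p (by omega) (by omega) h3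
  · intro p h1 h2
    rw [hbit] at h1 h2
    rw [not_or] at h2
    rw [mem_insert]
    rcases h1 with h3 | h3
    · right; exact c6 p h3 h2.1
    · left; omega
  · intro z
    rw [nb_insert hhiA]
    have e1 : (insert lo Q).erase 0 = insert lo (Q.erase 0) := by
      rw [erase_insert_of_ne hlo0]
    rw [e1, nb_insert (by simp [hloQ])]
    have h1 := deg z
    have h2 : ((Nat.lor LM (Nat.pow 2 (lt u t))).testBit z = true) ↔
        (LM.testBit z = true ∨ lt u t = z) := bit_lor_pow
    have h3 : (if lt u hi = z then 1 else 0) + (if lt u lo = z then 1 else 0) =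
        (if lt u s = z then 1 else 0) + (if lt u t = z then 1 else 0) := by
      rcases Nat.le_total s t with h | h
      · have e2 : lo = s := by omega
        have e3 : hi = t := by omega
        rw [e2, e3, add_comm]
      · have e2 : lo = t := by omega
        have e3 : hi = s := by omega
        rw [e2, e3]
    rw [hx]
    simp only [h2]
    by_cases h4 : lt u t = z
    · have h5 : ¬ LM.testBit z = true := by rw [← h4]; exact hLM
      rw [if_neg h5] at h1
      rw [if_pos h4] at h3 ⊢
      rw [if_pos (Or.inr h4)]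
      omega
    · rw [if_neg h4] at h3 ⊢
      have h6 : (LM.testBit z = true ∨ lt u t = z) ↔ LM.testBit z = true := by
        constructor
        · rintro (h | h)
          · exact h
          · exact absurd h h4
        · exact Or.inl
      simp only [h6]
      omega
  · intro lam mu g1 g2 g3 g4
    have hc : ∀ p, lo ≤ p → p ≤ hi → lam p = lam lo := by
      apply const_between
      intro p h1 h2
      apply g1 p ((hbit p).2 (Or.inr (by omega)))
      rw [mem_insert, not_or]
      refine ⟨by omega, ?_⟩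
      intro h3
      exact hCM p h1 (by omega) (c1 p h3)
    have hlolab : lam lo = mu (lt u lo) := g3 lo (mem_insert_self _ _) hlo0
    have hhilab : lam hi = mu (lt u hi) := g2 hi (mem_insert_self _ _)
    have hs : lam s = mu (lt u s) ∧ lam t = mu (lt u t) := by
      rcases Nat.le_total s t with h | h
      · have e2 : lo = s := by omega
        have e3 : hi = t := by omega
        rw [e2] at hlolab
        rw [e3] at hhilab
        exact ⟨hlolab, hhilab⟩
      · have e2 : lo = t := by omega
        have e3 : hi = s := by omega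
        rw [e2] at hlolab
        rw [e3] at hhilab
        exact ⟨hhilab, hlolab⟩
    obtain ⟨h1, h2⟩ := lab lam mu (fun p h1 h2 => by
        apply g1 p ((hbit p).2 (Or.inl h1))
        rw [mem_insert, not_or]
        refine ⟨?_, h2⟩
        intro h3
        exact hCM p (by omega) (by omega) h1)
      (fun p hp => g2 p (mem_insert_of_mem hp)) (fun p hp => g3 p (mem_insert_of_mem hp)) hs.1
    have h3 : lam t = lam 0 := by
      rw [← h1, hc t (by omega) (by omega), hc s (by omega) (by omega)]
    refine ⟨?_, ?_⟩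
    · rw [g4, hx, ← hs.2, h3]
    · intro p hp
      rw [hbit] at hp
      rcases hp with h | h
      · exact h2 p h
      · rw [hc p h.1 h.2, ← h1, hc s (by omega) (by omega)]

theorem first_sound {t s' : ℕ} (hx : lt u s' = lt u t) :
    Inv u {t} {0} s' (Nat.lor 0 (Nat.pow 2 (lt u t))) (Nat.lor 0 (ivl 0 t)) := by
  have hbit : ∀ p, (Nat.lor 0 (ivl 0 t)).testBit p = true ↔ p ≤ t := by
    intro p; rw [bit_lor, ivl_spec]; simp
  refine ⟨by simp, by simp, ?_, ?_, ?_, ?_, ?_, ?_, ?_⟩
  · intro p hp; rw [hbit]; simp at hp; omega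
  · intro p hp; rw [hbit]; simp at hp; omega
  · intro p hp h1; rw [hbit] at hp ⊢; simp at h1 ⊢; omega
  · intro p hp h1; rw [hbit] at h1; simp at hp; omega
  · intro p h1 h2; rw [hbit] at h1 h2; omega
  · intro z
    have e1 : nb u (({0} : Finset ℕ).erase 0) z = 0 := by simp [nb]
    have e2 : nb u {t} z = if lt u t = z then 1 else 0 := by
      unfold nb
      rw [filter_singleton]
      split_ifs <;> simp
    rw [e1, e2, hx]
    have h2 : ((Nat.lor 0 (Nat.pow 2 (lt u t))).testBit z = true) ↔ lt u t = z := by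
      rw [bit_lor_pow]; simp
    simp only [h2]
    split_ifs <;> rfl
  · intro lam mu g1 g2 g3 g4
    have hc : ∀ p, 0 ≤ p → p ≤ t → lam p = lam 0 := by
      apply const_between
      intro p h1 h2
      apply g1 p ((hbit p).2 (by omega))
      simp; omega
    refine ⟨?_, ?_⟩
    · rw [g4, hx, ← g2 t (by simp), hc t (by omega) le_rfl]
    · intro p hp
      exact hc p (by omega) ((hbit p).1 hp)

theorem wst_true {LM CM s' x I P : ℕ} {ih : ℕ → ℕ → ℕ → ℕ → Bool}
    (h : wst u LM CM s' x I P ih = true) : lt u s' = x ∧ Nat.land LM (Nat.pow 2 x) = 0 ∧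
      Nat.land CM I = 0 ∧ ih s' (Nat.lor LM (Nat.pow 2 x)) (Nat.lor CM I) P = true := by
  unfold wst at h
  obtain ⟨h1, h⟩ := br_false h
  obtain ⟨h2, h⟩ := br_false h
  obtain ⟨h3, h⟩ := br_false h
  exact ⟨beq_t.1 h1, beq_t.1 h2, beq_t.1 h3, h⟩

theorem walk_sound {q : ℕ} : ∀ (k s LM CM P : ℕ) (A Q : Finset ℕ), Inv u A Q s LM CM →
    walk u q k s LM CM P = true → ∃ A' Q' s' LM' CM', Inv u A' Q' s' LM' CM' ∧
      CM' + 1 = 2 ^ s' ∧ s' ≤ q := by
  intro k
  induction k with
  | zero =>
    intro s LM CM P A Q I h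
    have h1 : br (Nat.beq (Nat.succ CM) (Nat.pow 2 s)) (Nat.ble s q) false = true := h
    obtain ⟨h2, h3⟩ := br_false h1
    exact ⟨A, Q, s, LM, CM, I, beq_t.1 h2, ble_t.1 h3⟩
  | succ k ih =>
    intro s LM CM P A Q I h
    have h1 : wst u LM CM (Nat.mod (Nat.div P 32) 32) (lt u (Nat.mod P 32))
      (ivl s (Nat.mod P 32)) (Nat.div P 1024) (walk u q k) = true := h
    obtain ⟨h2, h3, h4, h5⟩ := wst_true h1
    refine ih _ _ _ _ _ _ (step_sound I h2 ?_ ?_) h5
    · intro h6
      exact land_zero h3 _ h6 (by show (2 ^ _).testBit _ = true; rw [Nat.testBit_two_pow]; simp)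
    · intro p h6 h7 h8
      exact land_zero h4 p h8 ((ivl_spec _ _ _).2 ⟨h6, h7⟩)

theorem pat_sound {q k P : ℕ} (h : pat u q k P = true) : ∃ A' Q' s' LM' CM',
    Inv u A' Q' s' LM' CM' ∧ CM' + 1 = 2 ^ s' ∧ s' ≤ q := by
  unfold pat at h
  rw [br_true] at h
  rcases h with ⟨_, h⟩ | ⟨h0, h⟩
  · simp at h
  · rw [beq_f] at h0
    obtain ⟨k, rfl⟩ : ∃ k', k = k' + 1 := ⟨k - 1, by omega⟩
    have h1 : wst u 0 0 (Nat.mod (Nat.div P 32) 32) (lt u (Nat.mod P 32))
      (ivl 0 (Nat.mod P 32)) (Nat.div P 1024) (walk u q k) = true := h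
    obtain ⟨h2, h3, h4, h5⟩ := wst_true h1
    exact walk_sound _ _ _ _ _ _ _ (first_sound h2) h5

theorem final_sound {N q s LM CM : ℕ} {φ : ℕ → L} {A Q : Finset ℕ} (hqN : q + 1 ≤ N)
    (hφ : ∀ j ≤ q, w j = φ (lt u j))
    (hw : ∀ i ≤ q, ∀ j ≤ q, (w i = w j ↔ lt u i = lt u j)) (I : Inv u A Q s LM CM)
    (hCM : CM + 1 = 2 ^ s) (hsq : s ≤ q) : IsPat w N A := by
  obtain ⟨z0, ne, c1, c2, c3, c4, c6, deg, lab⟩ := I
  have hbit : ∀ p, CM.testBit p = true ↔ p < s := by
    intro p
    have : CM = 2 ^ s - 1 := by omega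
    rw [this, Nat.testBit_two_pow_sub_one, decide_eq_true_eq]
  have hA : ∀ p ∈ A, p < s := fun p hp => (hbit p).1 (c1 p hp)
  have hQ : ∀ p ∈ Q, p < s := fun p hp => (hbit p).1 (c2 p hp)
  have hs0 : 0 < s := hQ 0 z0
  have him : A.image (fun p => p + 1) = insert s (Q.erase 0) := by
    ext r
    rw [mem_image, mem_insert, mem_erase]
    constructor
    · rintro ⟨p, hp, rfl⟩
      have h1 := hA p hp
      rcases Nat.eq_or_lt_of_le (show p + 1 ≤ s by omega) with h2 | h2
      · left; exact h2
      · right; exact ⟨by omega, c4 p hp ((hbit _).2 h2)⟩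
    · intro h
      have hr : r ≠ 0 ∧ r ≤ s ∧ (r < s → r ∈ Q) := by
        rcases h with h | h
        · exact ⟨by omega, by omega, by omega⟩
        · exact ⟨h.1, (hQ r h.2).le, fun _ => h.2⟩
      refine ⟨r - 1, ?_, by omega⟩
      by_contra h1
      obtain ⟨h2, h3⟩ := c3 (r - 1) ((hbit _).2 (by omega)) h1
      rw [hbit] at h2
      rw [show r - 1 + 1 = r by omega] at h2 h3
      exact h3 (hr.2.2 h2)
  have hsQ : s ∉ Q.erase 0 := by
    intro h
    have := hQ s (mem_of_mem_erase h)
    omega
  have hshift : ∀ z, (A.filter fun p => lt u (p + 1) = z).card =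
      nb u (Q.erase 0) z + (if lt u s = z then 1 else 0) := by
    intro z
    have e1 : ((A.image (fun p => p + 1)).filter fun r => lt u r = z).card =
        (A.filter fun p => lt u (p + 1) = z).card := by
      rw [filter_image, card_image_of_injective _ (add_left_injective 1)]
    rw [← e1, him]
    exact nb_insert hsQ z
  refine ⟨ne, ?_, ?_, ?_⟩
  · intro p hp
    have := hA p hp
    omega
  · intro z
    by_cases hz : ∃ j ≤ q, w j = z
    · obtain ⟨j, hj, rfl⟩ := hz
      have e : gdeg w A (w j) = nb u A (lt u j) + (nb u (Q.erase 0) (lt u j) +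
          (if lt u s = lt u j then 1 else 0)) := by
        rw [← hshift]
        unfold gdeg nb
        have e1 : (A.filter fun i => w i = w j) = A.filter fun i => lt u i = lt u j := by
          apply filter_congr
          intro i hi
          have := hA i hi
          exact hw i (by omega) j hj
        have e2 : (A.filter fun i => w (i + 1) = w j) =
            A.filter fun i => lt u (i + 1) = lt u j := by
          apply filter_congr
          intro i hi
          have := hA i hi
          exact hw (i + 1) (by omega) j hj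
        rw [e1, e2]
      rw [e]
      have := deg (lt u j)
      by_cases h : LM.testBit (lt u j) = true
      · rw [if_pos h] at this
        right; omega
      · rw [if_neg h] at this
        left; omega
    · left
      have e1 : (A.filter fun i => w i = z) = ∅ := by
        apply filter_eq_empty_iff.2
        intro i hi h5
        have := hA i hi
        exact hz ⟨i, by omega, h5⟩
      have e2 : (A.filter fun i => w (i + 1) = z) = ∅ := by
        apply filter_eq_empty_iff.2
        intro i hi h5
        have := hA i hi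
        exact hz ⟨i + 1, by omega, h5⟩
      unfold gdeg
      rw [e1, e2]
      simp
  · intro lam mu hc _ i hi
    have hmem : ∀ r, r ∈ insert s (Q.erase 0) → lam r = mu (w r) := by
      intro r hr
      rw [← him, mem_image] at hr
      obtain ⟨p, hp, rfl⟩ := hr
      have := hA p hp
      exact hc.snd p (by omega) (by omega) hp
    obtain ⟨h1, h2⟩ := lab lam (fun c => mu (φ c))
      (fun p h3 h4 => hc.seg p (by omega) (by have := (hbit p).1 h3; omega) h4)
      (fun p hp => by
        have := hA p hp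
        rw [hc.fst p (by omega) (by omega) hp, hφ p (by omega)])
      (fun p hp h0 => by
        have := hQ p hp
        rw [hmem p (mem_insert_of_mem (mem_erase.2 ⟨h0, hp⟩)), hφ p (by omega)])
      (by rw [hmem s (mem_insert_self _ _), hφ s hsq])
    rcases Nat.lt_or_ge i s with h3 | h3
    · exact h2 i ((hbit i).2 h3)
    · rw [← h1]
      have h4 : ∀ p, s ≤ p → p ≤ N - 1 → lam p = lam s := by
        apply const_between
        intro p h5 h6
        apply hc.seg p (by omega) h6
        intro h7
        have := hA p h7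
        omega
      exact h4 i h3 (by omega)

end

end I_Walk

open I_Walk in
/-- Soundness of `pat`. -/
theorem Walk_pf {L : Type} [DecidableEq L] (w : ℕ → L) (N u q k P : ℕ) (hqN : q + 1 ≤ N)
    (hw : ∀ i ≤ q, ∀ j ≤ q, (w i = w j ↔ lt u i = lt u j)) (h : pat u q k P = true) :
    ∃ F', IsPat w N F' := by
  classical
  let φ : ℕ → L := fun x => if h : ∃ j ≤ q, lt u j = x then w h.choose else w 0
  have hφ : ∀ j ≤ q, w j = φ (lt u j) := by
    intro j hj
    have hex : ∃ i ≤ q, lt u i = lt u j := ⟨j, hj, rfl⟩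
    have e : φ (lt u j) = w hex.choose := dif_pos hex
    rw [e]
    exact ((hw _ hex.choose_spec.1 j hj).2 hex.choose_spec.2).symm
  obtain ⟨A, Q, s, LM, CM, I, h1, h2⟩ := pat_sound h
  exact ⟨A, final_sound hqN hφ hw I h1 h2⟩

end Pool.Agent.Work.MP_7794fd_co.X
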