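import Pool.Agent.Work.MP_7794fd_co.X.Defs
import Pool.Agent.Work.MP_7794fd_co.T.Stmts

/-! Project MP_7794fd_co, block X: circuits with at most eight Tutte bridges.

THEOREM.  Let `C` be a circuit of a cubic graph such that `C` has at most eight Tutte bridges and
every Tutte bridge has at least two attachments (this is so if the graph is 2-connected).  Then `C`
has a semi-extension; and `C` has an extension unless there are seven or eight Tutte bridges, two of
them with three attachments and all the others with two.

As in block M the circuit is read as a cyclic word (letter of a vertex = its bridge).  A cyclic word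
is `w : ℕ → L` with period `n`.  Every item is a theorem `X_pf : S_X` in its own file
`X/I_X.lean`; the items which it uses are hypotheses. -/

set_option autoImplicit false

namespace Pool.Agent.Work.MP_7794fd_co.X

open Finset Pool.Agent.Work.MP_7794fd_co.R Pool.Agent.Work.MP_7794fd_co.M

section Words

variable {L : Type} [DecidableEq L]

/-- the letters of the cyclic word -/
def Lts (w : ℕ → L) (n : ℕ) : Finset L := (range n).image w

/-- the number of the occurrences of the letter `x` -/
def cnt (w : ℕ → L) (n : ℕ) (x : L) : ℕ := ((range n).filter fun i => w i = x).card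

/-- a cyclic word of length `n` in which every letter occurs at least twice -/
structure Cyc (w : ℕ → L) (n : ℕ) : Prop where
  pos : 2 ≤ n
  per : ∀ i, w (i + n) = w i
  mult : ∀ x ∈ Lts w n, 2 ≤ cnt w n x

/-- some rotation of the cyclic word has a pattern (`IsPat` does not use the gap between the last
and the first position) -/
def CycPat (w : ℕ → L) (n : ℕ) : Prop := ∃ k F, IsPat (fun i => w (i + k)) n F

/-- the exceptional words -/
structure Exc (w : ℕ → L) (n : ℕ) : Prop where
  big : 7 ≤ (Lts w n).card
  cnt23 : ∀ x ∈ Lts w n, cnt w n x = 2 ∨ cnt w n x = 3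
  two : ((Lts w n).filter fun x => cnt w n x = 3).card = 2

/-- the conclusion -/
def Concl (w : ℕ → L) (n : ℕ) : Prop := CycPat w n ∨ Exc w n

/-- `F` is a CYCLIC PATTERN of the cyclic word `w` of length `n` (`w` and `lam` have period `n`, the
gap `n - 1` lies between the positions `n - 1` and `n`, that is `0`) -/
structure IsCP (w : ℕ → L) (n : ℕ) (F : Finset ℕ) : Prop where
  ne : F.Nonempty
  lt : ∀ i ∈ F, i < n
  deg : ∀ x, gdeg w F x = 0 ∨ gdeg w F x = 2
  conn : ∀ (lam : ℕ → Bool) (mu : L → Bool), (∀ i, lam (i + n) = lam i) →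
    (∀ i < n, i ∉ F → lam i = lam (i + 1)) →
    (∀ i < n, i ∈ F → lam i = mu (w i) ∧ lam (i + 1) = mu (w (i + 1))) →
    ∀ i < n, lam i = lam 0

/-- the reduced word: if `w 0 = w 2`, delete the positions `1` and `2` (so the new position `0` is
the old position `2`, the new position `j` is the old position `j + 2`) and identify the letters
`w 0` and `w 1` -/
def red (w : ℕ → L) (n : ℕ) : ℕ → L :=
  fun j => if w (j % (n - 2) + 2) = w 1 then w 0 else w (j % (n - 2) + 2)

end Words

/-! ### The items on words -/

/-- A cyclic pattern gives a pattern of a rotation.  Some gap `g < n` is not in `F`: if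
`F = range n` then every letter `x` of `w` has `gdeg w F x = 2 * cnt w n x ≥ 4` (periodicity for the
second summand).  Take `k = g + 1` and the set `F' = {(i + n - k) % n | i ∈ F}` (so
`j ∈ F' ↔ j < n ∧ (j + k) % n ∈ F`); then `n - 1 ∉ F'`.  Degrees: `j ↦ (j + k) % n` is a bijection
of the gaps and `w` has period `n`.  `conn`: from labels `lam` on `0, ..., n - 1` (with
`lam 0 = lam (n-1)`) define labels of the cyclic word by `lam' i = lam ((i + n - k % n) % n)`. -/
def S_CPof : Prop := ∀ {L : Type} [DecidableEq L] (w : ℕ → L) (n : ℕ) (F : Finset ℕ),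
  Cyc w n → IsCP w n F → CycPat w n

/-- The converse: `F' = {(i + k) % n | i ∈ F}`.  The gap `n - 1` of the rotated word is not in `F`
(`IsPat.lt`), so cyclic labels satisfy `lam 0 = lam (n - 1)` there. -/
def S_CPto : Prop := ∀ {L : Type} [DecidableEq L] (w : ℕ → L) (n : ℕ),
  Cyc w n → CycPat w n → ∃ F, IsCP w n F

/-- Rotations. -/
def S_RotC : Prop := ∀ {L : Type} [DecidableEq L] (w : ℕ → L) (n k : ℕ), Cyc w n →
  Cyc (fun i => w (i + k)) n ∧ Lts (fun i => w (i + k)) n = Lts w n ∧
  (∀ x, cnt (fun i => w (i + k)) n x = cnt w n x) ∧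
  (Concl (fun i => w (i + k)) n → Concl w n)

/-- The reduced word is a cyclic word, has one letter less, and is exceptional only if `w` is.
`x = w 0 = w 2`, `y = w 1`.  `n ≥ 4`, since `x` and `y` occur twice each.  For `z ≠ x, y`:
`cnt (red w n) (n-2) z = cnt w n z`; `cnt (red w n) (n-2) x = cnt w n x + cnt w n y - 2`;
`Lts (red w n) (n-2) = (Lts w n).erase y`.  If the reduced word is exceptional then
`cnt w n x + cnt w n y - 2` is `2` or `3`, so `{cnt w n x, cnt w n y}` is `{2}` or `{2, 3}`. -/
def S_RedCyc : Prop := ∀ {L : Type} [DecidableEq L] (w : ℕ → L) (n : ℕ), Cyc w n →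
  w 0 = w 2 → w 0 ≠ w 1 → Cyc (red w n) (n - 2) ∧
  (Lts (red w n) (n - 2)).card < (Lts w n).card ∧ (Exc (red w n) (n - 2) → Exc w n)

/-- A pattern of the reduced word gives a pattern of `w`.  `x = w 0 = w 2`, `y = w 1`, `w' = red w n`,
`n ≥ 4`.  The gap `j` of `w'` corresponds to the gap `j + 2` of `w`; let `F2 = F' + 2` (subset of
`{2, ..., n-1}`).  `gdeg w F2 z = gdeg w' F' z` for `z ≠ x, y`, and `gdeg w' F' x` is
`gdeg w F2 x + gdeg w F2 y`.
(1) If `gdeg w F2 x` and `gdeg w F2 y` are both in `{0, 2}` then `F2` works: given labels `lam`, `mu`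
of `w`, use `lam' j = lam (j % (n-2) + 2)` and `mu' x = mu x` (or `mu y` if `gdeg w F2 y = 2`); note
`lam 0 = lam 1 = lam 2` as `0, 1 ∉ F2`.
(2) Otherwise both are `1`; the two ends of `x` in `F'` have labels `mu x` and `mu y` in `w`.
If `n - 1 ∈ F2` take `F = F2 ∪ {1}`, if `2 ∈ F2` take `F = F2 ∪ {0}`: then
`lam 0 = lam 1 = lam 2 = mu x = mu y` follows and `lam'`, `mu'` are as before.
If `n - 1, 2 ∉ F2` then `F2 ∪ {0}` or `F2 ∪ {1}` works: in the first case compatible labels satisfy
`lam 0 = mu x`, `lam 1 = lam 2 = mu y`, in the second one `lam 0 = lam 1 = mu y`, `lam 2 = mu x`.  If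
both fail there are two pairs of non-constant compatible labels; if `mu x = mu y` in one of them we
are again as before (all labels are constant, contradiction); so `mu x ≠ mu y` in both.  The sum
(`xor`) of the two labelings, the second one complemented if necessary such that the two labels of
the position `0` agree, gives labels of `w'` with `lam' 0 = false` (the labels of the positions `0`
and `2` both become `false`) and the label `true` at both ends of `x`: contradiction to `conn` of
`F'`. -/
def S_RedPat : Prop := ∀ {L : Type} [DecidableEq L] (w : ℕ → L) (n : ℕ) (F' : Finset ℕ), Cyc w n →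
  w 0 = w 2 → w 0 ≠ w 1 → IsCP (red w n) (n - 2) F' → ∃ F, IsCP w n F

/-- The reduction. -/
def S_Red : Prop := ∀ {L : Type} [DecidableEq L] (w : ℕ → L) (n : ℕ), Cyc w n →
  w 0 = w 2 → w 0 ≠ w 1 → (Concl (red w n) (n - 2) → Concl w n)

/-- The word `w` has no two equal letters at distance less than `d`. -/
structure Far {L : Type} [DecidableEq L] (m d : ℕ) (w : ℕ → L) (n : ℕ) : Prop where
  cyc : Cyc w n
  far : ∀ i j, i < j → j < i + d → w i ≠ w j
  card : (Lts w n).card ≤ m

/-- The first `l` letters of `w` are given by the code `u`; the letters `0, ..., c - 1` of the code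
occur and stand for different letters of `w`. -/
structure Pre {L : Type} [DecidableEq L] (w : ℕ → L) (n u l c : ℕ) (φ : ℕ → L) : Prop where
  le : l ≤ n
  small : u < 8 ^ l
  let' : ∀ i < l, lt u i < c ∧ w i = φ (lt u i)
  inj : ∀ x < c, ∀ y < c, φ x = φ y → x = y
  occ : ∀ x < c, ∃ i < l, lt u i = x

/-- every word which begins like `u` is fine -/
def GoodW (m d u l c : ℕ) : Prop := ∀ {L : Type} [DecidableEq L] (w : ℕ → L) (n : ℕ) (φ : ℕ → L),
  Far m d w n → Pre w n u l c φ → Concl w n

/-- The code of the word `0 1 2 ... (d-1) 0`. -/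
def rootU (d : ℕ) : ℕ := ∑ i ∈ range d, i * 8 ^ i

/-- The finite computation. -/
def S_Trees : Prop := ∀ d, 3 ≤ d → d ≤ 8 → GoodW 8 d (rootU d) (d + 1) d

/-- THE THEOREM ON WORDS.  Strong induction on the number of letters.  Let `d ≥ 1` be the least
distance `j - i` of two positions `i < j` with `w i = w j` (it exists, `d ≤ n` by periodicity, even
`d < n` by `mult`); rotate such that `w 0 = w d` (`S_RotC`).  `d = 1`: the gap `0` alone is a pattern
(`gdeg` is `2` for `w 0` and `0` otherwise).  `d = 2`: `S_Red` and the induction hypothesis.  `d ≥ 3`: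
the letters `w 0, ..., w (d-1)` are different, hence `d ≤ 8`, and `S_Trees` applies with `φ i = w i`
for `i < d` (`lt (rootU d) i = i` for `i < d`, `lt (rootU d) d = 0`, `rootU d < 8 ^ d`; check the six
values of `d`). -/
def S_Word : Prop := ∀ {L : Type} [DecidableEq L] (w : ℕ → L) (n : ℕ), Cyc w n →
  (Lts w n).card ≤ 8 → Concl w n

/-! ### The items on graphs -/

/-- The bridge sets are the classes of `SameBridge G C ∅` on the vertices of `C`.  Let `v` be a vertex
of `C` and `e` its third edge (not in `C`).  If the other end `x` of `e` is on `C` then the class of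
`v` is `{v, x}` and this is the bridge set of the chord `e`; otherwise it is `att G C ∅ x` (a vertex of
`att G C ∅ u` has exactly one neighbour outside, which is in the component of `u`; `Reach` is
symmetric and transitive).  Compare `M/I_Letters.lean`, where the same is done. -/
def S_Br : Prop := ∀ {V E : Type} [Fintype V] [DecidableEq V] [Fintype E] [DecidableEq E]
  (G : MG V E) (C : Finset E), Cubic G → IsCircuit G C →
  (∀ v ∈ verts G C, {x | x ∈ verts G C ∧ SameBridge G C ∅ v x} ∈ bridgeSets G C) ∧
  (∀ A ∈ bridgeSets G C, ∀ v ∈ A, v ∈ verts G C ∧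
    A = {x | x ∈ verts G C ∧ SameBridge G C ∅ v x}) ∧
  (∀ v ∈ verts G C, ∀ x ∈ verts G C, SameBridge G C ∅ v x → SameBridge G C ∅ x v) ∧
  (∀ v ∈ verts G C, ∀ x ∈ verts G C, ∀ z ∈ verts G C, SameBridge G C ∅ v x →
    SameBridge G C ∅ x z → SameBridge G C ∅ v z)

/-- The word of the circuit.  Enumerate the circuit (`StCyc`, `R/Cyc.lean`), let `br v` be the class of
`v` (for `v` on `C`), `w i = br (f (i % n))`.  `cnt w n (br v)` is the size of `br v`
(`f` is injective on `range n` and onto `verts G C`); hence `Cyc` from the hypothesis, and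
`Lts w n` is the set of all bridge sets (a bridge set is nonempty, so it is `br v` for some `v`).
The letters are of type `Set V` (use `classical` for `DecidableEq`). -/
def S_WordG : Prop := ∀ {V E : Type} [Fintype V] [DecidableEq V] [Fintype E] [DecidableEq E]
  [DecidableEq (Set V)] (G : MG V E) (C : Finset E), Cubic G → IsCircuit G C →
  (∀ A ∈ bridgeSets G C, 2 ≤ A.ncard) →
  ∃ (n : ℕ) (f : ℕ → V) (c : ℕ → E) (w : ℕ → Set V), IsCyc G C n f c ∧ Cyc w n ∧
    (∀ i j, w i = w j ↔ SameBridge G C ∅ (f (i % n)) (f (j % n))) ∧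
    (∀ A, A ∈ Lts w n ↔ A ∈ bridgeSets G C) ∧ (∀ A ∈ bridgeSets G C, cnt w n A = A.ncard)

/-- A pattern of a rotation gives an extension (rotate the enumeration with `I_CycEdge.rot`,
`M/I_CycEdge.lean`, and use `PatExt_pf`, `ExtSemi_pf` of block M; here as hypotheses
`M.S_PatExt`, `M.S_ExtSemi`). -/
def S_CycExt : Prop := ∀ {V E : Type} [Fintype V] [DecidableEq V] [Fintype E] [DecidableEq E]
  [DecidableEq (Set V)] (G : MG V E) (C : Finset E) (n : ℕ) (f : ℕ → V) (c : ℕ → E)
  (w : ℕ → Set V), Cubic G → IsCircuit G C → IsCyc G C n f c →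
  (∀ i j, w i = w j ↔ SameBridge G C ∅ (f (i % n)) (f (j % n))) → CycPat w n →
  ∃ D, IsCircuit G D ∧ D ≠ C ∧ verts G C ⊆ verts G D ∧ IsSemiExt G C D

/-- If all bridge sets have two or three elements and exactly two of them have three then there is a
semi-extension: `StMain3` (`T/Main3.lean`, hypothesis).  `C`-path: take a bridge set `A`, two
different elements `v`, `x` of it, `SameBridge` by `S_Br`, a path by `M.S_BPath`, which is an
`IsCPath`.  For outside `u` the set `att G C ∅ u` is empty or a bridge set, so it has at most three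
elements.  Four outside vertices `f i` with `ncard = 3`: two of the four sets `att G C ∅ (f i)` are
equal (at most two bridge sets have three elements), and a common element `x` of `att G C ∅ u` and
`att G C ∅ u'` gives `Reach` of `u` and `u'` (the only neighbour of `x` outside `C` is reached from
both; `S_Br` or directly). -/
def S_ExcSemi : Prop := ∀ {V E : Type} [Fintype V] [DecidableEq V] [Fintype E] [DecidableEq E]
  (G : MG V E) (C : Finset E), Cubic G → IsCircuit G C →
  (∀ A ∈ bridgeSets G C, A.ncard = 2 ∨ A.ncard = 3) →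
  {A | A ∈ bridgeSets G C ∧ A.ncard = 3}.ncard = 2 → ∃ D, IsSemiExt G C D

/-- THE FINAL THEOREM (from `Word`, `WordG`, `CycExt`, `ExcSemi`). -/
def S_FinalX : Prop := ∀ {V E : Type} [Fintype V] [DecidableEq V] [Fintype E] [DecidableEq E]
  (G : MG V E), Cubic G → ∀ C : Finset E, IsCircuit G C →
  (∀ A ∈ bridgeSets G C, 2 ≤ A.ncard) → (bridgeSets G C).ncard ≤ 8 →
  (∃ D, IsSemiExt G C D) ∧
  ((∃ D, IsCircuit G D ∧ D ≠ C ∧ verts G C ⊆ verts G D) ∨
    (7 ≤ (bridgeSets G C).ncard ∧ (∀ A ∈ bridgeSets G C, A.ncard = 2 ∨ A.ncard = 3) ∧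
      {A | A ∈ bridgeSets G C ∧ A.ncard = 3}.ncard = 2))

end Pool.Agent.Work.MP_7794fd_co.X
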